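import Pool.Agent.H64.OC2.Reduce
import Pool.Agent.H45.OC.Final

/-!
# On-line colouring: one algorithm for all numbers of vertices
-/

set_option autoImplicit false

namespace Pool.Agent.H64.OC2

open Finset
open Pool.Agent.H64.OC

/-- the graph `G` cut or extended to `M` vertices -/
def resize {n : ℕ} (G : SimpleGraph (Fin n)) (M : ℕ) : SimpleGraph (Fin M) where
  Adj a b := ∃ (ha : a.val < n) (hb : b.val < n), G.Adj ⟨a.val, ha⟩ ⟨b.val, hb⟩
  symm := ⟨fun _ _ ⟨ha, hb, h⟩ => ⟨hb, ha, h.symm⟩⟩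
  loopless := ⟨fun _ ⟨_, _, h⟩ => h.ne rfl⟩

theorem resize_colorable {n : ℕ} {G : SimpleGraph (Fin n)} {k : ℕ} (hk : 1 ≤ k)
    (h : G.Colorable k) (M : ℕ) : (resize G M).Colorable k := by
  obtain ⟨C⟩ := h
  refine ⟨SimpleGraph.Coloring.mk
    (fun a => if ha : a.val < n then C ⟨a.val, ha⟩ else ⟨0, hk⟩) ?_⟩
  rintro a b ⟨ha, hb, hab⟩
  simp only [ha, hb, dif_pos]
  exact C.valid hab

theorem initial_resize {n : ℕ} (G : SimpleGraph (Fin n)) (M : ℕ) {s : ℕ} (hs : s < n)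
    (hsM : s < M) : initial (resize G M) ⟨s, hsM⟩ = initial G ⟨s, hs⟩ := by
  ext a b
  constructor
  · rintro ⟨ha, hb, hab⟩
    exact hab
  · intro hab
    have ha : a.val < n := by have := a.isLt; simp at this; omega
    have hb : b.val < n := by have := b.isLt; simp at this; omega
    exact ⟨ha, hb, hab⟩

/-- one algorithm from algorithms for `2, 4, 8, ...` vertices -/
def uniform (As : ℕ → OnlineAlg) : OnlineAlg := fun s G =>
  Nat.pair (Nat.log 2 (s + 1)) (As (Nat.log 2 (s + 1)) s G)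

theorem uniform_proper {As : ℕ → OnlineAlg} (h : ∀ i, (As i).Proper) : (uniform As).Proper := by
  intro n G i j hij heq
  unfold OnlineAlg.colour uniform at heq
  obtain ⟨h1, h2⟩ := Nat.pair_eq_pair.1 heq
  rw [h1] at h2
  exact h _ n G i j hij h2

theorem uniform_count {As : ℕ → OnlineAlg} {k : ℕ} (hk : 1 ≤ k) {n : ℕ}
    (G : SimpleGraph (Fin n)) (hG : G.Colorable k) (f : ℕ → ℕ)
    (hf : ∀ i, ∀ H : SimpleGraph (Fin (2 ^ (i + 1))), H.Colorable k → (As i).numColours H ≤ f i) :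
    (uniform As).numColours G ≤ ∑ i ∈ range (Nat.log 2 n + 1), f i := by
  classical
  unfold OnlineAlg.numColours
  have hsub : univ.image ((uniform As).colour G) ⊆
      (range (Nat.log 2 n + 1)).biUnion (fun i =>
        (univ.image ((As i).colour (resize G (2 ^ (i + 1))))).image (fun c => Nat.pair i c)) := by
    intro c hc
    rw [mem_image] at hc
    obtain ⟨s, _, rfl⟩ := hc
    rw [mem_biUnion]
    refine ⟨Nat.log 2 (s.val + 1), ?_, ?_⟩
    · rw [mem_range, Nat.lt_succ_iff]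
      exact Nat.log_mono_right s.isLt
    · rw [mem_image]
      have hlt : s.val < 2 ^ (Nat.log 2 (s.val + 1) + 1) := by
        have := Nat.lt_pow_succ_log_self (b := 2) (by norm_num) (s.val + 1)
        simp only [Nat.succ_eq_add_one] at this
        omega
      refine ⟨(As (Nat.log 2 (s.val + 1))).colour (resize G _) ⟨s.val, hlt⟩,
        mem_image_of_mem _ (mem_univ _), ?_⟩
      unfold OnlineAlg.colour uniform
      rw [initial_resize G _ s.isLt hlt]
  refine (Finset.card_le_card hsub).trans (Finset.card_biUnion_le.trans ?_)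
  refine Finset.sum_le_sum fun i _ => ?_
  exact Finset.card_image_le.trans (hf i _ (resize_colorable hk hG _))

theorem natLog_le_rpow {δ : ℝ} (hδ : 0 < δ) {n : ℕ} (hn : 1 ≤ n) :
    ((Nat.log 2 n : ℕ) : ℝ) + 1 ≤ (2 / δ + 1) * (n : ℝ) ^ δ := by
  have hn1 : (1 : ℝ) ≤ n := by exact_mod_cast hn
  have h1 : ((Nat.log 2 n : ℕ) : ℝ) ≤ Real.log n / Real.log 2 := by
    have h2 : (2 : ℝ) ^ (Nat.log 2 n) ≤ n := by
      exact_mod_cast Nat.pow_log_le_self 2 (by omega)
    have h3 := Real.log_le_log (by positivity) h2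
    rw [Real.log_pow] at h3
    rw [le_div_iff₀ (Real.log_pos (by norm_num))]
    exact h3
  have h2 : Real.log n ≤ (n : ℝ) ^ δ / δ := Real.log_natCast_le_rpow_div n hδ
  have h3 : (1 : ℝ) / 2 ≤ Real.log 2 := by
    have := Real.log_two_gt_d9
    linarith
  have h4 : Real.log n / Real.log 2 ≤ 2 * Real.log n := by
    rw [div_le_iff₀ (by linarith)]
    have := Real.log_nonneg hn1
    nlinarith
  have h5 : (1 : ℝ) ≤ (n : ℝ) ^ δ := Real.one_le_rpow hn1 hδ.le
  have h6 : (2 / δ + 1) * (n : ℝ) ^ δ = 2 * ((n : ℝ) ^ δ / δ) + (n : ℝ) ^ δ := by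
    ring
  rw [h6]
  linarith

/-- **One deterministic on-line algorithm for all `k`-colourable graphs** with `O(n^(e + ε))`
colours for every `ε > 0`, where `e = (k - 2) / (k - 1)`. -/
theorem uniform_upper {k : ℕ} (hk : 3 ≤ k) : ∃ A : OnlineAlg, A.Proper ∧
    ∀ ε : ℝ, 0 < ε → ∃ K : ℝ, ∀ n : ℕ, 1 ≤ n → ∀ G : SimpleGraph (Fin n), G.Colorable k →
      (A.numColours G : ℝ) ≤ K * (n : ℝ) ^ (((k : ℝ) - 2) / ((k : ℝ) - 1) + ε) := by
  have hA : ∀ i : ℕ, ∃ A : OnlineAlg, A.Proper ∧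
      ∀ H : SimpleGraph (Fin (2 ^ (i + 1))), H.Colorable k →
        A.numColours H ≤ phi k (2 ^ (i + 1)) := fun i =>
    Nat.sInf_mem (phi_set_nonempty k (2 ^ (i + 1)))
  choose As h1 h2 using hA
  refine ⟨uniform As, uniform_proper h1, ?_⟩
  intro ε hε
  obtain ⟨K, hK⟩ := Pool.Agent.H45.OC.upper_all k (by omega) (ε / 2) (by linarith)
  set e : ℝ := ((k : ℝ) - 2) / ((k : ℝ) - 1) with he
  have hk3 : (3 : ℝ) ≤ k := by exact_mod_cast hk
  have he0 : 0 ≤ e := div_nonneg (by linarith) (by linarith)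
  refine ⟨(2 / (ε / 2) + 1) * (|K| * 2 ^ (e + ε / 2)), ?_⟩
  intro n hn G hG
  have hn1 : (1 : ℝ) ≤ n := by exact_mod_cast hn
  have hcount := uniform_count (by omega) G hG (fun i => phi k (2 ^ (i + 1))) h2
  have hsum : ((∑ i ∈ range (Nat.log 2 n + 1), phi k (2 ^ (i + 1)) : ℕ) : ℝ) ≤
      ((Nat.log 2 n : ℕ) + 1) * (|K| * 2 ^ (e + ε / 2) * (n : ℝ) ^ (e + ε / 2)) := by
    push_cast
    calc ∑ i ∈ range (Nat.log 2 n + 1), (phi k (2 ^ (i + 1)) : ℝ)
        ≤ ∑ _i ∈ range (Nat.log 2 n + 1), |K| * 2 ^ (e + ε / 2) * (n : ℝ) ^ (e + ε / 2) := by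
          refine Finset.sum_le_sum fun i hi => ?_
          rw [mem_range, Nat.lt_succ_iff] at hi
          have h3 := hK (2 ^ (i + 1)) Nat.one_le_two_pow
          have h4 : ((2 ^ (i + 1) : ℕ) : ℝ) ≤ 2 * n := by
            have h5 : 2 ^ i ≤ n := (Nat.pow_le_pow_right (by norm_num) hi).trans
              (Nat.pow_log_le_self 2 (by omega))
            have h6 : 2 ^ (i + 1) ≤ 2 * n := by rw [pow_succ]; omega
            exact_mod_cast h6
          calc (phi k (2 ^ (i + 1)) : ℝ) ≤ K * ((2 ^ (i + 1) : ℕ) : ℝ) ^ (e + ε / 2) := h3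
            _ ≤ |K| * ((2 ^ (i + 1) : ℕ) : ℝ) ^ (e + ε / 2) :=
              mul_le_mul_of_nonneg_right (le_abs_self K) (by positivity)
            _ ≤ |K| * (2 * n) ^ (e + ε / 2) := by
              refine mul_le_mul_of_nonneg_left ?_ (abs_nonneg K)
              exact Real.rpow_le_rpow (by positivity) h4 (by linarith)
            _ = |K| * 2 ^ (e + ε / 2) * (n : ℝ) ^ (e + ε / 2) := by
              rw [Real.mul_rpow (by norm_num) (by linarith), mul_assoc]
      _ = _ := by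
          rw [Finset.sum_const, card_range, nsmul_eq_mul]
          push_cast
          ring
  have hlog := natLog_le_rpow (show 0 < ε / 2 by linarith) hn
  calc ((uniform As).numColours G : ℝ)
      ≤ ((∑ i ∈ range (Nat.log 2 n + 1), phi k (2 ^ (i + 1)) : ℕ) : ℝ) := by
        exact_mod_cast hcount
    _ ≤ ((Nat.log 2 n : ℕ) + 1) * (|K| * 2 ^ (e + ε / 2) * (n : ℝ) ^ (e + ε / 2)) := hsum
    _ ≤ (2 / (ε / 2) + 1) * (n : ℝ) ^ (ε / 2) *
        (|K| * 2 ^ (e + ε / 2) * (n : ℝ) ^ (e + ε / 2)) :=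
        mul_le_mul_of_nonneg_right hlog (by positivity)
    _ = (2 / (ε / 2) + 1) * (|K| * 2 ^ (e + ε / 2)) * (n : ℝ) ^ (e + ε) := by
        have : (n : ℝ) ^ (e + ε) = (n : ℝ) ^ (ε / 2) * (n : ℝ) ^ (e + ε / 2) := by
          rw [← Real.rpow_add (by linarith)]
          congr 1
          ring
        rw [this]
        ring

end Pool.Agent.H64.OC2
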