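import Pool.Agent.H64.OC2.Reduce

/-!
# On-line colouring: the asymptotic form of the lower bound
-/

set_option autoImplicit false

namespace Pool.Agent.H64.OC2

open Finset
open Pool.Agent.H64.OC

theorem tower_lt_of_lt_logStar {n t : ℕ} (h : t < logStar n) : tower t < n := by
  have := Nat.notMem_of_lt_sInf h
  exact not_le.1 this

theorem lt_logStar_of_tower_lt {n t : ℕ} (h : tower t < n) : t < logStar n := by
  by_contra hle
  rw [not_lt] at hle
  have := (le_tower_logStar n).trans (tower_mono hle)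
  omega

theorem two_pow_le_tower (t : ℕ) : 2 ^ t ≤ tower (t + 1) := by
  show 2 ^ t ≤ 2 ^ tower t
  exact Nat.pow_le_pow_right (by norm_num) (lt_tower t).le

theorem exists_large (C : ℝ) : ∃ t0 : ℕ, ∀ t ≥ t0, C * ((t : ℝ) + 7) ^ 2 ≤ 2 ^ t := by
  have h1 : Filter.Tendsto (fun t : ℕ => (t : ℝ) ^ 2 / 2 ^ t) Filter.atTop (nhds 0) :=
    tendsto_pow_const_div_const_pow_of_one_lt 2 (by norm_num)
  have h2 : ∀ᶠ t : ℕ in Filter.atTop, (t : ℝ) ^ 2 / 2 ^ t < 1 / (4 * (|C| + 1)) := by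
    refine h1.eventually (gt_mem_nhds ?_)
    positivity
  obtain ⟨t0, ht0⟩ := Filter.eventually_atTop.1 h2
  refine ⟨max t0 7, fun t ht => ?_⟩
  have h3 := ht0 t ((le_max_left _ _).trans ht)
  have h4 : (7 : ℝ) ≤ t := by exact_mod_cast (le_max_right _ _).trans ht
  have h5 : (0 : ℝ) < 2 ^ t := by positivity
  rw [div_lt_div_iff₀ h5 (by positivity), one_mul] at h3
  have h6 : ((t : ℝ) + 7) ^ 2 ≤ 4 * (t : ℝ) ^ 2 := by nlinarith
  have h7 : C ≤ |C| := le_abs_self C
  have h8 : 0 ≤ |C| := abs_nonneg C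
  calc C * ((t : ℝ) + 7) ^ 2 ≤ (|C| + 1) * ((t : ℝ) + 7) ^ 2 := by
        refine mul_le_mul_of_nonneg_right (by linarith) (by positivity)
    _ ≤ (|C| + 1) * (4 * (t : ℝ) ^ 2) := mul_le_mul_of_nonneg_left h6 (by linarith)
    _ = (t : ℝ) ^ 2 * (4 * (|C| + 1)) := by ring
    _ ≤ 2 ^ t := h3.le

/-- **The lower bound, asymptotic form.** -/
theorem phi_asymp {ε : ℝ} (hε : 0 < ε) : ∃ n0 : ℕ, ∀ n ≥ n0, ∀ k ≥ 3,
    (n : ℝ) ^ (1 / ((2 + ε) * (logStar n : ℝ))) ≤ (phi k n : ℝ) := by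
  set δ : ℝ := (ε / 2) / (2 + ε) with hδ
  have hδ0 : 0 < δ := by positivity
  obtain ⟨t0, ht0⟩ := exists_large (4 / δ)
  obtain ⟨t1, ht1⟩ := exists_nat_ge (14 / ε)
  refine ⟨tower (t0 + t1 + 3) + 1, fun n hn k hk => ?_⟩
  have ht : t0 + t1 + 3 < logStar n := lt_logStar_of_tower_lt hn
  set t := logStar n with htdef
  by_contra hlt
  rw [not_le] at hlt
  have hn1 : (1 : ℝ) ≤ n := by
    have : 1 ≤ n := by omega
    exact_mod_cast this
  have htpos : (0 : ℝ) < t := by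
    have : 0 < t := by omega
    exact_mod_cast this
  set x : ℝ := (n : ℝ) ^ (1 / ((2 + ε) * (t : ℝ))) with hx
  have hx1 : 1 ≤ x := Real.one_le_rpow hn1 (by positivity)
  have hmain := phi_near_polynomial (k := k) (n := n) hk
  rw [← htdef] at hmain
  have h1 : (n : ℝ) < (2 * x) ^ (2 * t + 7) * ((t : ℝ) + 4) ^ (t + 3) := by
    have h2 : (n : ℝ) < ((phi k n : ℝ) + 1) ^ (2 * t + 7) * ((t : ℝ) + 4) ^ (t + 3) := by
      exact_mod_cast hmain
    refine h2.trans_le (mul_le_mul_of_nonneg_right ?_ (by positivity))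
    exact pow_le_pow_left₀ (by positivity) (by linarith) _
  have hx0 : 0 < x := by linarith
  have hn0 : (0 : ℝ) < n := by linarith
  have h2 : Real.log n < (2 * (t : ℝ) + 7) * (Real.log 2 + Real.log x) +
      ((t : ℝ) + 3) * Real.log ((t : ℝ) + 4) := by
    have h3 := Real.log_lt_log hn0 h1
    rw [Real.log_mul (by positivity) (by positivity), Real.log_pow, Real.log_pow,
      Real.log_mul (by norm_num) hx0.ne'] at h3
    push_cast at h3
    exact h3
  have hlx : Real.log x = Real.log n / ((2 + ε) * t) := by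
    rw [hx, Real.log_rpow hn0]
    ring
  have hl2 : Real.log 2 ≤ 1 := by
    have := Real.log_two_lt_d9
    linarith
  have hl20 : 1 / 2 ≤ Real.log 2 := by
    have := Real.log_two_gt_d9
    linarith
  have hlt4 : Real.log ((t : ℝ) + 4) ≤ (t : ℝ) + 4 := by
    have := Real.log_le_sub_one_of_pos (show (0 : ℝ) < (t : ℝ) + 4 by positivity)
    linarith
  have hlogn : 0 ≤ Real.log n := Real.log_nonneg hn1
  have ht14 : 14 ≤ ε * t := by
    have h3 : (t1 : ℝ) ≤ t := by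
      have : t1 ≤ t := by omega
      exact_mod_cast this
    have h4 : 14 / ε ≤ t := ht1.trans h3
    rw [div_le_iff₀ hε] at h4
    linarith
  have hfrac : (2 * (t : ℝ) + 7) / ((2 + ε) * t) ≤ 1 - δ := by
    rw [div_le_iff₀ (by positivity), hδ]
    have h3 : (1 - ε / 2 / (2 + ε)) * ((2 + ε) * (t : ℝ)) = (2 + ε / 2) * t := by
      have : (2 + ε) ≠ 0 := by positivity
      field_simp
      ring
    rw [h3]
    linarith
  have h3 : δ * Real.log n < 2 * ((t : ℝ) + 4) ^ 2 := by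
    have h4 : (2 * (t : ℝ) + 7) * Real.log x ≤ (1 - δ) * Real.log n := by
      rw [hlx]
      calc (2 * (t : ℝ) + 7) * (Real.log n / ((2 + ε) * t))
          = (2 * (t : ℝ) + 7) / ((2 + ε) * t) * Real.log n := by ring
        _ ≤ (1 - δ) * Real.log n := mul_le_mul_of_nonneg_right hfrac hlogn
    have h5 : (2 * (t : ℝ) + 7) * Real.log 2 ≤ 2 * (t : ℝ) + 7 := by
      have : (0 : ℝ) ≤ 2 * (t : ℝ) + 7 := by positivity
      nlinarith
    have h6 : ((t : ℝ) + 3) * Real.log ((t : ℝ) + 4) ≤ ((t : ℝ) + 3) * ((t : ℝ) + 4) :=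
      mul_le_mul_of_nonneg_left hlt4 (by positivity)
    nlinarith
  -- the tower bound
  obtain ⟨s, hs⟩ : ∃ s, t = s + 3 := ⟨t - 3, by omega⟩
  have hs0 : t0 ≤ s := by omega
  have h4 : tower (s + 2) < n := tower_lt_of_lt_logStar (by omega)
  have h5 : (2 : ℝ) ^ s * (1 / 2) ≤ Real.log n := by
    have h6 : (2 : ℝ) ^ (2 ^ s) ≤ n := by
      have h7 : 2 ^ (2 ^ s) ≤ tower (s + 2) := by
        show 2 ^ (2 ^ s) ≤ 2 ^ tower (s + 1)
        exact Nat.pow_le_pow_right (by norm_num) (two_pow_le_tower s)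
      exact_mod_cast h7.trans h4.le
    have h7 := Real.log_le_log (by positivity) h6
    rw [Real.log_pow] at h7
    push_cast at h7
    have h8 : (0 : ℝ) < 2 ^ s := by positivity
    nlinarith
  have h6 := ht0 s hs0
  have h7 : (t : ℝ) + 4 = s + 7 := by
    rw [hs]; push_cast; ring
  rw [h7] at h3
  have h8 : 4 / δ * ((s : ℝ) + 7) ^ 2 * (1 / 2) ≤ Real.log n :=
    (mul_le_mul_of_nonneg_right h6 (by norm_num)).trans h5
  have h9 : δ * (4 / δ * ((s : ℝ) + 7) ^ 2 * (1 / 2)) = 2 * ((s : ℝ) + 7) ^ 2 := by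
    field_simp
    ring
  have h10 := mul_le_mul_of_nonneg_left h8 hδ0.le
  rw [h9] at h10
  linarith

end Pool.Agent.H64.OC2
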