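import Mathlib

/-!
# On-line colouring: balanced distributions
-/

set_option autoImplicit false

namespace Pool.Agent.H64.OC2

open Finset

/-- positions in an object of level `j` -/
def Ps (w : ℕ) : ℕ → Type
  | 0 => Unit
  | j + 1 => Fin w × Ps w j

/-- the average of a function on the positions -/
noncomputable def avg (w : ℕ) : (j : ℕ) → (Ps w j → ℝ) → ℝ
  | 0, f => f ()
  | j + 1, f => (∑ t : Fin w, avg w j (fun q => f ((t, q) : Fin w × Ps w j))) / w

theorem avg_succ (w j : ℕ) (f : Ps w (j + 1) → ℝ) :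
    avg w (j + 1) f = (∑ t : Fin w, avg w j (fun q => f ((t, q) : Fin w × Ps w j))) / w := rfl

theorem avg_nonneg {w : ℕ} (j : ℕ) (f : Ps w j → ℝ) (h : ∀ q, 0 ≤ f q) : 0 ≤ avg w j f := by
  induction j with
  | zero => exact h ()
  | succ j ih =>
    rw [avg_succ]
    exact div_nonneg (Finset.sum_nonneg fun t _ => ih _ fun q => h _) (Nat.cast_nonneg _)

theorem avg_le_one {w : ℕ} (j : ℕ) (f : Ps w j → ℝ) (h : ∀ q, f q ≤ 1) : avg w j f ≤ 1 := by
  induction j with
  | zero => exact h ()
  | succ j ih =>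
    rw [avg_succ]
    have h1 : ∑ t : Fin w, avg w j (fun q => f ((t, q) : Fin w × Ps w j)) ≤ w := by
      calc ∑ t : Fin w, avg w j (fun q => f ((t, q) : Fin w × Ps w j))
          ≤ ∑ _t : Fin w, (1 : ℝ) := Finset.sum_le_sum fun t _ => ih _ fun q => h _
        _ = w := by simp
    exact div_le_one_of_le₀ h1 (Nat.cast_nonneg _)

theorem avg_pos {w : ℕ} (j : ℕ) (f : Ps w j → ℝ) (h : 0 < avg w j f) : ∃ q, 0 < f q := by
  by_contra hc
  push Not at hc
  have h1 : 0 ≤ avg w j (fun q => - f q) := avg_nonneg j _ fun q => by linarith [hc q]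
  have h2 : avg w j (fun q => - f q) = - avg w j f := by
    clear h h1 hc
    induction j with
    | zero => rfl
    | succ j ih =>
      rw [avg_succ, avg_succ]
      simp only [ih]
      rw [Finset.sum_neg_distrib, neg_div]
  linarith

theorem avg_sum {w : ℕ} {ι : Type} (s : Finset ι) (j : ℕ) (f : ι → Ps w j → ℝ) :
    avg w j (fun q => ∑ i ∈ s, f i q) = ∑ i ∈ s, avg w j (f i) := by
  induction j with
  | zero => rfl
  | succ j ih =>
    rw [avg_succ]
    simp only [ih]
    rw [Finset.sum_comm, Finset.sum_div]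
    rfl

theorem avg_one {w : ℕ} (hw : 1 ≤ w) (j : ℕ) : avg w j (fun _ => (1 : ℝ)) = 1 := by
  induction j with
  | zero => rfl
  | succ j ih =>
    rw [avg_succ]
    simp only [ih]
    have : (w : ℝ) ≠ 0 := by
      have : 0 < w := hw
      positivity
    simp [this]

/-- anti-sorting: one step of the balanced distribution -/
theorem exists_perm {w : ℕ} (S f : Fin w → ℝ) (hS : ∀ t t', S t - S t' ≤ 1)
    (hf0 : ∀ t, 0 ≤ f t) (hf1 : ∀ t, f t ≤ 1) :
    ∃ π : Equiv.Perm (Fin w), ∀ t t', (S t + f (π t)) - (S t' + f (π t')) ≤ 1 := by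
  set ρ := Tuple.sort S with hρ
  set φ := Tuple.sort (fun t => - f t) with hφ
  have h1 : Monotone (S ∘ ρ) := Tuple.monotone_sort S
  have h2 : Monotone ((fun t => - f t) ∘ φ) := Tuple.monotone_sort _
  refine ⟨ρ.symm.trans φ, ?_⟩
  intro t t'
  simp only [Equiv.trans_apply]
  rcases le_total (ρ.symm t) (ρ.symm t') with h | h
  · have h3 := h1 h
    have h4 := h2 h
    simp only [Function.comp_apply, Equiv.apply_symm_apply] at h3 h4
    have := hf1 (φ (ρ.symm t))
    have := hf0 (φ (ρ.symm t'))
    linarith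
  · have h3 := h1 h
    have h4 := h2 h
    simp only [Function.comp_apply, Equiv.apply_symm_apply] at h3 h4
    have := hS t t'
    linarith

/-- **Balanced distribution.**  The functions `f k` (`k ∈ K`) carry labels `c k`; after permuting
every `f k` suitably, for every label the sums at the points of `Fin w` differ by at most one. -/
theorem balance {w : ℕ} {ι : Type} [DecidableEq ι] (K : Finset ι) (c : ι → ℕ)
    (f : ι → Fin w → ℝ) (hf0 : ∀ k t, 0 ≤ f k t) (hf1 : ∀ k t, f k t ≤ 1) :
    ∃ π : ι → Equiv.Perm (Fin w), ∀ a t t',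
      ∑ k ∈ K.filter (fun k => c k = a), f k (π k t) -
        ∑ k ∈ K.filter (fun k => c k = a), f k (π k t') ≤ 1 := by
  induction K using Finset.induction_on with
  | empty => exact ⟨fun _ => Equiv.refl _, by simp⟩
  | insert k₀ K hk ih =>
    obtain ⟨π, hπ⟩ := ih
    obtain ⟨ρ, hρ⟩ := exists_perm
      (fun t => ∑ k ∈ K.filter (fun k => c k = c k₀), f k (π k t)) (f k₀)
      (hπ (c k₀)) (hf0 k₀) (hf1 k₀)
    refine ⟨Function.update π k₀ ρ, ?_⟩
    have hsame : ∀ a t, ∑ k ∈ K.filter (fun k => c k = a), f k (Function.update π k₀ ρ k t) =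
        ∑ k ∈ K.filter (fun k => c k = a), f k (π k t) := by
      intro a t
      refine Finset.sum_congr rfl fun k hk' => ?_
      have : k ≠ k₀ := by
        rintro rfl
        exact hk (Finset.mem_filter.1 hk').1
      rw [Function.update_of_ne this]
    intro a t t'
    rw [Finset.filter_insert]
    by_cases ha : c k₀ = a
    · subst ha
      rw [if_pos rfl]
      have hnot : k₀ ∉ K.filter (fun k => c k = c k₀) := fun h => hk (Finset.mem_filter.1 h).1
      rw [Finset.sum_insert hnot, Finset.sum_insert hnot, hsame, hsame, Function.update_self]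
      have := hρ t t'
      linarith
    · rw [if_neg ha, hsame, hsame]
      exact hπ a t t'

/-- the sum at every point is at least the average minus one -/
theorem balance_ge {w : ℕ} {ι : Type} (K : Finset ι) (c : ι → ℕ)
    (f : ι → Fin w → ℝ) (π : ι → Equiv.Perm (Fin w))
    (hπ : ∀ a t t',
      ∑ k ∈ K.filter (fun k => c k = a), f k (π k t) -
        ∑ k ∈ K.filter (fun k => c k = a), f k (π k t') ≤ 1) (a : ℕ) (t : Fin w) :
    ∑ k ∈ K.filter (fun k => c k = a), (∑ s : Fin w, f k s) / w - 1 ≤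
      ∑ k ∈ K.filter (fun k => c k = a), f k (π k t) := by
  have hw : (0 : ℝ) < w := by
    have : 0 < w := Fin.pos t
    exact_mod_cast this
  have h1 : ∑ k ∈ K.filter (fun k => c k = a), (∑ s : Fin w, f k s) / w =
      (∑ t' : Fin w, ∑ k ∈ K.filter (fun k => c k = a), f k (π k t')) / w := by
    rw [Finset.sum_comm, Finset.sum_div]
    refine Finset.sum_congr rfl fun k _ => ?_
    rw [Equiv.sum_comp (π k) (f k)]
  rw [h1]
  have h2 : ∑ t' : Fin w, ∑ k ∈ K.filter (fun k => c k = a), f k (π k t') ≤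
      ∑ _t' : Fin w, (∑ k ∈ K.filter (fun k => c k = a), f k (π k t) + 1) := by
    refine Finset.sum_le_sum fun t' _ => ?_
    have := hπ a t' t
    linarith
  rw [Finset.sum_const, Finset.card_univ, Fintype.card_fin, nsmul_eq_mul] at h2
  have h3 : (∑ t' : Fin w, ∑ k ∈ K.filter (fun k => c k = a), f k (π k t')) / w ≤
      ∑ k ∈ K.filter (fun k => c k = a), f k (π k t) + 1 := by
    rw [div_le_iff₀ hw]
    linarith
  linarith

/-- **Grouping.**  Numbers in `[0, 1]` with sum at least `T * (θ + 1)` can be divided into `T`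
groups with sums larger than `θ`. -/
theorem grouping {w : ℕ} (m : Fin w → ℝ) (hm1 : ∀ t, m t ≤ 1) (θ : ℝ) (hθ : 0 ≤ θ)
    (T : ℕ) (A : Finset (Fin w)) (hsum : T * (θ + 1) ≤ ∑ t ∈ A, m t) :
    ∃ g : Fin w → ℕ, ∀ r < T, θ < ∑ t ∈ A.filter (fun t => g t = r), m t := by
  classical
  induction T generalizing A with
  | zero => exact ⟨fun _ => 0, fun r hr => absurd hr (Nat.not_lt_zero _)⟩
  | succ T ih =>
    -- a minimal subset with sum larger than `θ`
    have hex : ∃ n, ∃ C ⊆ A, θ < ∑ t ∈ C, m t ∧ C.card = n := by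
      refine ⟨A.card, A, Finset.Subset.refl _, ?_, rfl⟩
      have : (T : ℝ) * (θ + 1) ≥ 0 := by positivity
      push_cast at hsum
      nlinarith
    obtain ⟨C, hCA, hCs, hCc⟩ := Nat.find_spec hex
    have hCle : ∑ t ∈ C, m t ≤ θ + 1 := by
      by_contra hlt
      rw [not_le] at hlt
      have hCne : C.Nonempty := by
        by_contra hempty
        rw [Finset.not_nonempty_iff_eq_empty] at hempty
        rw [hempty] at hlt
        simp only [Finset.sum_empty] at hlt
        linarith
      obtain ⟨t₀, ht₀⟩ := hCne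
      have h1 : ∑ t ∈ C.erase t₀, m t + m t₀ = ∑ t ∈ C, m t := Finset.sum_erase_add _ _ ht₀
      have h2 := hm1 t₀
      have h3 : (C.erase t₀).card < Nat.find hex := by
        rw [← hCc]
        exact Finset.card_erase_lt_of_mem ht₀
      exact Nat.find_min hex h3 ⟨C.erase t₀, (Finset.erase_subset _ _).trans hCA,
        by linarith, rfl⟩
    have hrest : (T : ℝ) * (θ + 1) ≤ ∑ t ∈ A \ C, m t := by
      have h1 : ∑ t ∈ A \ C, m t + ∑ t ∈ C, m t = ∑ t ∈ A, m t := Finset.sum_sdiff hCA
      push_cast at hsum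
      linarith
    obtain ⟨g, hg⟩ := ih (A \ C) hrest
    refine ⟨fun t => if t ∈ C then T else if t ∈ A \ C ∧ g t < T then g t else T + 1, ?_⟩
    intro r hr
    rcases Nat.lt_succ_iff_lt_or_eq.1 hr with h | h
    · refine (hg r h).trans_le (le_of_eq ?_)
      refine Finset.sum_congr ?_ fun _ _ => rfl
      ext t
      simp only [Finset.mem_filter, Finset.mem_sdiff]
      constructor
      · rintro ⟨⟨h1, h2⟩, h3⟩
        refine ⟨h1, ?_⟩
        rw [if_neg h2, if_pos ⟨⟨h1, h2⟩, by omega⟩, h3]
      · rintro ⟨h1, h2⟩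
        by_cases hC : t ∈ C
        · rw [if_pos hC] at h2; omega
        · rw [if_neg hC] at h2
          by_cases h3 : (t ∈ A ∧ t ∉ C) ∧ g t < T
          · rw [if_pos h3] at h2
            exact ⟨⟨h1, hC⟩, h2⟩
          · rw [if_neg h3] at h2; omega
    · subst h
      refine hCs.trans_le (le_of_eq ?_)
      refine Finset.sum_congr ?_ fun _ _ => rfl
      ext t
      simp only [Finset.mem_filter, Finset.mem_sdiff]
      constructor
      · intro h1
        exact ⟨hCA h1, by rw [if_pos h1]⟩
      · rintro ⟨h1, h2⟩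
        by_contra hC
        rw [if_neg hC] at h2
        by_cases h3 : (t ∈ A ∧ t ∉ C) ∧ g t < r
        · rw [if_pos h3] at h2; omega
        · rw [if_neg h3] at h2; omega

end Pool.Agent.H64.OC2
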