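import Pool.Agent.H64.OC2.Types
import Pool.Agent.H64.OC2.Balance
import Pool.Agent.H64.OC.Core

/-!
# On-line colouring: objects

An object of level `0` is a vertex, an object of level `j + 1` consists of `w` objects of level
`j`.  It is attached to a family of slots `Z k` (`k ∈ K`) of earlier objects of level `j`; its own
slots are `Bl σ` (`σ : Fin w`).
-/

set_option autoImplicit false

namespace Pool.Agent.H64.OC2

open Finset
open Pool.Agent.H64.OC (Hist Painter)

/-- the colourings of an object of given type -/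
def Pt (w : ℕ) : (j : ℕ) → Ty j → (Ps w j → Fin 3) → Prop
  | 0 => fun c κ => κ () = (show Fin 3 from c)
  | j + 1 => fun A κ => ∀ t : Fin w, ∃ a ∈ (show Set (Ty j) from A),
      Pt w j a (fun q => κ ((t, q) : Fin w × Ps w j))

/-- indicator of the bin `c` -/
noncomputable def ind (P : Painter) (H : Hist) (c y : ℕ) : ℝ := if P.col y H = c then 1 else 0

theorem ind_nonneg (P : Painter) (H : Hist) (c y : ℕ) : 0 ≤ ind P H c y := by
  unfold ind; split_ifs <;> norm_num

theorem ind_le_one (P : Painter) (H : Hist) (c y : ℕ) : ind P H c y ≤ 1 := by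
  unfold ind; split_ifs <;> norm_num

theorem ind_pos {P : Painter} {H : Hist} {c y : ℕ} (h : 0 < ind P H c y) : P.col y H = c := by
  unfold ind at h
  by_contra hc
  rw [if_neg hc] at h
  exact lt_irrefl _ h

theorem col_congr (P : Painter) {H H' : Hist} {y N : ℕ} (h : ∀ x < N, H' x = H x) (hy : y < N) :
    P.col y H' = P.col y H := P.loc y H H' fun i hi => h i (by omega)

theorem ind_congr (P : Painter) {H H' : Hist} {y N : ℕ} (c : ℕ) (h : ∀ x < N, H' x = H x)
    (hy : y < N) : ind P H' c y = ind P H c y := by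
  unfold ind; rw [col_congr P h hy]

/-- an object of level `j`, at the vertices `n, ..., n + w ^ j - 1` -/
structure IsObj (P : Painter) (w : ℕ) {ι : Type} (j n : ℕ) (H : Hist) (K : Finset ι)
    (Z : ι → Ps w j → ℕ) (cc : ι → ℕ) (Bl : Fin w → Ps w j → ℕ) : Prop where
  bl_mem : ∀ σ q, n ≤ Bl σ q ∧ Bl σ q < n + w ^ j
  avoid : ∀ c : ℕ, (j : ℝ) < ∑ k ∈ K.filter (fun k => cc k = c),
    avg w j (fun q => ind P H c (Z k q)) → ∀ x, n ≤ x → x < n + w ^ j → P.col x H ≠ c
  colour : ∀ τ : Ty j, Ok j τ → ∀ (act : Fin w → Prop) (τs : Fin w → Ty j)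
    (κs : Fin w → Ps w j → Fin 3), (∀ σ, act σ → Adm j τ (τs σ) ∧ Pt w j (τs σ) (κs σ)) →
    ∃ (χ : ℕ → Fin 3) (κ : ι → Ps w j → Fin 3),
      (∀ k ∈ K, Pt w j τ (κ k)) ∧
      (∀ x, n ≤ x → x < n + w ^ j → ∀ y ∈ H x, ∃ k ∈ K, ∃ q, y = Z k q ∧ χ x = κ k q) ∧
      (∀ σ, act σ → ∀ q, χ (Bl σ q) ≠ κs σ q)

theorem IsObj.congr {P : Painter} {w : ℕ} {ι : Type} {j n : ℕ} {H H' : Hist} {K : Finset ι}
    {Z : ι → Ps w j → ℕ} {cc : ι → ℕ} {Bl : Fin w → Ps w j → ℕ}
    (h : IsObj P w j n H K Z cc Bl) (hZ : ∀ k ∈ K, ∀ q, Z k q < n)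
    (hH : ∀ x < n + w ^ j, H' x = H x) : IsObj P w j n H' K Z cc Bl where
  bl_mem := h.bl_mem
  avoid c hc x hx1 hx2 := by
    rw [col_congr P hH hx2]
    refine h.avoid c (hc.trans_le (le_of_eq ?_)) x hx1 hx2
    refine Finset.sum_congr rfl fun k hk => ?_
    congr 1
    funext q
    exact ind_congr P c hH (by
      have := hZ k (Finset.mem_filter.1 hk).1 q
      omega)
  colour τ hτ act τs κs hs := by
    obtain ⟨χ, κ, h1, h2, h3⟩ := h.colour τ hτ act τs κs hs
    refine ⟨χ, κ, h1, fun x hx1 hx2 y hy => ?_, h3⟩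
    rw [hH x hx2] at hy
    exact h2 x hx1 hx2 y hy

/-- objects of level zero -/
theorem obj_zero (P : Painter) {w : ℕ} {ι : Type} (n : ℕ) (H : Hist) (K : Finset ι)
    (Z : ι → Ps w 0 → ℕ) (cc : ι → ℕ) (hZ : ∀ k ∈ K, ∀ q, Z k q < n) :
    ∃ (H' : Hist) (Bl : Fin w → Ps w 0 → ℕ), (∀ x < n, H' x = H x) ∧
      IsObj P w 0 n H' K Z cc Bl := by
  classical
  have hH' : ∀ x < n, (fun x => if x < n then H x else K.image (fun k => Z k ()) : Hist) x =
      H x := by
    intro x hx
    simp [hx]
  refine ⟨fun x => if x < n then H x else K.image (fun k => Z k ()), fun _ _ => n, hH', ?_⟩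
  refine ⟨?_, ?_, ?_⟩
  · intro σ q
    simp
  · intro c hc x hx1 hx2
    have hx : x = n := by
      rw [pow_zero] at hx2; omega
    subst hx
    have hc' : 0 < ∑ k ∈ K.filter (fun k => cc k = c), avg w 0
        (fun q => ind P (fun y => if y < x then H y else K.image (fun k => Z k ())) c (Z k q)) := by
      simpa using hc
    have hex : ∃ k ∈ K.filter (fun k => cc k = c), 0 < avg w 0
        (fun q => ind P (fun y => if y < x then H y else K.image (fun k => Z k ())) c (Z k q)) := by
      by_contra hno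
      push Not at hno
      exact absurd hc' (not_lt.2 (Finset.sum_nonpos hno))
    obtain ⟨k, hk, hkpos⟩ := hex
    have hkK := (Finset.mem_filter.1 hk).1
    have hcol := ind_pos (show 0 < ind P (fun y => if y < x then H y else
      K.image (fun k => Z k ())) c (Z k ()) from hkpos)
    rw [← hcol]
    refine P.proper x _ (Z k ()) (hZ k hkK ()) ?_
    simp only [lt_irrefl, if_false]
    exact Finset.mem_image_of_mem (fun k => Z k ()) hkK
  · intro τ _ act τs κs hs
    refine ⟨fun _ => (show Fin 3 from τ), fun _ _ => (show Fin 3 from τ), ?_, ?_, ?_⟩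
    · intro k _
      rfl
    · intro x hx1 hx2 y hy
      have hx : ¬ x < n := by omega
      simp only [hx, if_false] at hy
      rw [Finset.mem_image] at hy
      obtain ⟨k, hk, rfl⟩ := hy
      exact ⟨k, hk, (), rfl, rfl⟩
    · intro σ hσ q
      obtain ⟨h1, h2⟩ := hs σ hσ
      have h2' : κs σ () = (show Fin 3 from τs σ) := h2
      have h1' : (show Fin 3 from τ) ≠ (show Fin 3 from τs σ) := h1
      show (show Fin 3 from τ) ≠ κs σ ()
      rw [h2']
      exact h1'

/-- a row of objects -/
theorem row {P : Painter} {w : ℕ} {ι : Type} {j : ℕ} (K : Finset ι) (cc : ι → ℕ)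
    (hobj : ∀ (n : ℕ) (H : Hist) (Z : ι → Ps w j → ℕ), (∀ k ∈ K, ∀ q, Z k q < n) →
      ∃ (H' : Hist) (Bl : Fin w → Ps w j → ℕ), (∀ x < n, H' x = H x) ∧
        IsObj P w j n H' K Z cc Bl)
    (n : ℕ) (H : Hist) (Zs : ℕ → ι → Ps w j → ℕ) (hZ : ∀ t, ∀ k ∈ K, ∀ q, Zs t k q < n) (m : ℕ) :
    ∃ (H' : Hist) (Bls : ℕ → Fin w → Ps w j → ℕ), (∀ x < n, H' x = H x) ∧
      ∀ t < m, IsObj P w j (n + t * w ^ j) H' K (Zs t) cc (Bls t) := by
  induction m with
  | zero => exact ⟨H, fun _ _ _ => 0, fun _ _ => rfl, fun t ht => absurd ht (Nat.not_lt_zero _)⟩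
  | succ m ih =>
    obtain ⟨H₁, Bls, h1, h2⟩ := ih
    obtain ⟨H₂, Bl, h3, h4⟩ := hobj (n + m * w ^ j) H₁ (Zs m) (fun k hk q =>
      (hZ m k hk q).trans_le (Nat.le_add_right _ _))
    refine ⟨H₂, Function.update Bls m Bl, ?_, ?_⟩
    · intro x hx
      rw [h3 x (by omega), h1 x hx]
    · intro t ht
      rcases Nat.lt_succ_iff_lt_or_eq.1 ht with h | h
      · rw [Function.update_of_ne (by omega)]
        refine (h2 t h).congr (fun k hk q => (hZ t k hk q).trans_le (Nat.le_add_right _ _)) ?_
        intro x hx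
        refine h3 x (hx.trans_le ?_)
        have : (t + 1) * w ^ j ≤ m * w ^ j := Nat.mul_le_mul_right _ h
        rw [Nat.add_mul, one_mul] at this
        omega
      · subst h
        rw [Function.update_self]
        exact h4

/-- objects of all levels -/
theorem obj_exists (P : Painter) {w : ℕ} (hw : 1 ≤ w) {ι : Type} (j : ℕ) (K : Finset ι)
    (cc : ι → ℕ) (n : ℕ) (H : Hist) (Z : ι → Ps w j → ℕ) (hZ : ∀ k ∈ K, ∀ q, Z k q < n) :
    ∃ (H' : Hist) (Bl : Fin w → Ps w j → ℕ), (∀ x < n, H' x = H x) ∧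
      IsObj P w j n H' K Z cc Bl := by
  classical
  induction j generalizing n H with
  | zero => exact obj_zero P n H K Z cc hZ
  | succ j ih =>
    -- the balanced distribution
    obtain ⟨π, hπ⟩ := balance K cc
      (fun k s => avg w j (fun q => ind P H (cc k) (Z k ((s, q) : Fin w × Ps w j))))
      (fun k t => avg_nonneg j _ fun q => ind_nonneg _ _ _ _)
      (fun k t => avg_le_one j _ fun q => ind_le_one _ _ _ _)
    have hbal := balance_ge K cc
      (fun k s => avg w j (fun q => ind P H (cc k) (Z k ((s, q) : Fin w × Ps w j)))) π hπ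
    -- the children
    obtain ⟨H', Bls, hag, hch⟩ := row (P := P) (w := w) (j := j) K cc
      (fun n H Z hZ => ih n H Z hZ) n H
      (fun t k q => if h : t < w then Z k ((π k ⟨t, h⟩, q) : Fin w × Ps w j) else
        Z k ((⟨0, hw⟩, q) : Fin w × Ps w j))
      (by
        intro t k hk q
        by_cases h : t < w
        · simp only [h, dif_pos]; exact hZ k hk _
        · simp only [h, dif_neg, not_false_eq_true]; exact hZ k hk _) w
    have hch' : ∀ t : Fin w, IsObj P w j (n + t.val * w ^ j) H' K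
        (fun k q => Z k ((π k t, q) : Fin w × Ps w j)) cc (Bls t.val) := by
      intro t
      have := hch t.val t.isLt
      simpa using this
    have hbnd : ∀ t : Fin w, n + t.val * w ^ j + w ^ j ≤ n + w ^ (j + 1) := by
      intro t
      have h1 : (t.val + 1) * w ^ j ≤ w * w ^ j := Nat.mul_le_mul_right _ t.isLt
      have h2 : w * w ^ j = w ^ (j + 1) := by rw [pow_succ]; ring
      rw [Nat.add_mul, one_mul] at h1
      omega
    have hpos : 0 < w ^ j := Nat.pow_pos hw
    -- the child containing a vertex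
    have hidx : ∀ x, n ≤ x → x < n + w ^ (j + 1) → ∃ t : Fin w, t.val = (x - n) / w ^ j ∧
        n + t.val * w ^ j ≤ x ∧ x < n + t.val * w ^ j + w ^ j := by
      intro x h1 h2
      have h3 : (x - n) / w ^ j < w := by
        rw [Nat.div_lt_iff_lt_mul hpos]
        have : w * w ^ j = w ^ (j + 1) := by rw [pow_succ]; ring
        omega
      refine ⟨⟨(x - n) / w ^ j, h3⟩, rfl, ?_, ?_⟩
      · have := Nat.div_mul_le_self (x - n) (w ^ j)
        show n + (x - n) / w ^ j * w ^ j ≤ x
        omega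
      · have h4 := Nat.div_add_mod (x - n) (w ^ j)
        have h5 := Nat.mod_lt (x - n) hpos
        show x < n + (x - n) / w ^ j * w ^ j + w ^ j
        rw [Nat.mul_comm ((x - n) / w ^ j)]
        omega
    refine ⟨H', fun σ p => Bls σ.val (Prod.fst (α := Fin w) (β := Ps w j) p)
      (Prod.snd (α := Fin w) (β := Ps w j) p), hag, ?_, ?_, ?_⟩
    · intro σ p
      have h1 := (hch' σ).bl_mem (Prod.fst (α := Fin w) (β := Ps w j) p)
        (Prod.snd (α := Fin w) (β := Ps w j) p)
      have h2 := hbnd σ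
      exact ⟨by omega, by omega⟩
    · -- avoid
      intro c hc x hx1 hx2
      obtain ⟨t, _, ht1, ht2⟩ := hidx x hx1 hx2
      refine (hch' t).avoid c ?_ x ht1 ht2
      have e1 : ∑ k ∈ K.filter (fun k => cc k = c), avg w (j + 1)
          (fun q => ind P H' c (Z k q)) =
          ∑ k ∈ K.filter (fun k => cc k = c), (∑ s : Fin w, avg w j
            (fun q => ind P H (cc k) (Z k ((s, q) : Fin w × Ps w j)))) / w := by
        refine Finset.sum_congr rfl fun k hk => ?_
        rw [Finset.mem_filter] at hk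
        rw [avg_succ, hk.2]
        congr 1
        refine Finset.sum_congr rfl fun s _ => ?_
        congr 1
        funext q
        exact ind_congr P c hag (hZ k hk.1 _)
      have e2 : ∑ k ∈ K.filter (fun k => cc k = c), avg w j
          (fun q => ind P H' c (Z k ((π k t, q) : Fin w × Ps w j))) =
          ∑ k ∈ K.filter (fun k => cc k = c), avg w j
            (fun q => ind P H (cc k) (Z k ((π k t, q) : Fin w × Ps w j))) := by
        refine Finset.sum_congr rfl fun k hk => ?_
        rw [Finset.mem_filter] at hk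
        rw [hk.2]
        congr 1
        funext q
        exact ind_congr P c hag (hZ k hk.1 _)
      rw [e1] at hc
      rw [e2]
      have := hbal c t
      push_cast at hc
      linarith
    · -- colour
      intro τ hτ act τs κs hs
      have hchild : ∀ t : Fin w, ∃ a ∈ (show Set (Ty j) from τ),
          ∃ (χ : ℕ → Fin 3) (κ : ι → Ps w j → Fin 3),
            (∀ k ∈ K, Pt w j a (κ k)) ∧
            (∀ x, n + t.val * w ^ j ≤ x → x < n + t.val * w ^ j + w ^ j → ∀ y ∈ H' x,
              ∃ k ∈ K, ∃ q, y = Z k ((π k t, q) : Fin w × Ps w j) ∧ χ x = κ k q) ∧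
            (act t → ∀ s q, χ (Bls t.val s q) ≠ κs t ((s, q) : Fin w × Ps w j)) := by
        intro t
        by_cases hact : act t
        · obtain ⟨h1, h2⟩ := hs t hact
          obtain ⟨a, ha, haa⟩ := h1
          have h2' : ∀ s : Fin w, ∃ a' ∈ (show Set (Ty j) from τs t),
            Pt w j a' (fun q => κs t ((s, q) : Fin w × Ps w j)) := h2
          choose a' ha' hpt using h2'
          obtain ⟨χ, κ, h3, h4, h5⟩ := (hch' t).colour a (hτ.2 a ha) (fun _ => True) a'
            (fun s q => κs t ((s, q) : Fin w × Ps w j))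
            (fun s _ => ⟨haa _ (ha' s), hpt s⟩)
          exact ⟨a, ha, χ, κ, h3, h4, fun _ s q => h5 s trivial q⟩
        · obtain ⟨a, ha⟩ := hτ.1
          obtain ⟨χ, κ, h3, h4, _⟩ := (hch' t).colour a (hτ.2 a ha) (fun _ => False)
            (fun _ => a) (fun _ _ => 0) (fun _ h => h.elim)
          exact ⟨a, ha, χ, κ, h3, h4, fun h => absurd h hact⟩
      choose a ha χ κ h1 h2 h3 using hchild
      have hχ : ∀ (t : Fin w) (x : ℕ), n + t.val * w ^ j ≤ x → x < n + t.val * w ^ j + w ^ j →
          (fun x => if h : (x - n) / w ^ j < w then χ ⟨(x - n) / w ^ j, h⟩ x else 0 : ℕ → Fin 3) x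
            = χ t x := by
        intro t x hx1 hx2
        have e : (x - n) / w ^ j = t.val := by
          rw [Nat.div_eq_iff hpos]
          constructor <;> omega
        have h : (x - n) / w ^ j < w := by rw [e]; exact t.isLt
        simp only [h, dif_pos]
        congr 1
        exact Fin.ext e
      refine ⟨fun x => if h : (x - n) / w ^ j < w then χ ⟨(x - n) / w ^ j, h⟩ x else 0,
        fun k p => κ ((π k).symm (Prod.fst (α := Fin w) (β := Ps w j) p)) k
          (Prod.snd (α := Fin w) (β := Ps w j) p), ?_, ?_, ?_⟩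
      · intro k hk s
        exact ⟨a ((π k).symm s), ha _, h1 _ k hk⟩
      · intro x hx1 hx2 y hy
        obtain ⟨t, _, ht1, ht2⟩ := hidx x hx1 hx2
        obtain ⟨k, hk, q, hq1, hq2⟩ := h2 t x ht1 ht2 y hy
        refine ⟨k, hk, ((π k t, q) : Fin w × Ps w j), hq1, ?_⟩
        rw [hχ t x ht1 ht2, hq2]
        show κ t k q = κ ((π k).symm (π k t)) k q
        rw [Equiv.symm_apply_apply]
      · intro σ hσ p
        have h4 := (hch' σ).bl_mem (Prod.fst (α := Fin w) (β := Ps w j) p)
          (Prod.snd (α := Fin w) (β := Ps w j) p)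
        rw [hχ σ _ h4.1 h4.2]
        exact h3 σ hσ _ _

end Pool.Agent.H64.OC2
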