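import Pool.Agent.H64.OC2.Obj

/-!
# On-line colouring: simulating `p`-colourable on-line graphs

`E` is the history of the outer graph (`i ∈ E j`, `i < j`: the outer vertices `i`, `j` are
adjacent).  Every outer vertex `i` is replaced by an object `V i` of level `L`.
-/

set_option autoImplicit false

namespace Pool.Agent.H64.OC2

open Finset
open Pool.Agent.H64.OC (Hist Painter)

/-- the state of the construction -/
structure St (w L : ℕ) where
  H : Hist
  Bl : ℕ → Fin w → Ps w L → ℕ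
  g : ℕ → Fin w → ℕ
  b : ℕ → ℕ

/-- the slots that the object number `s` uses -/
def Kset {w : ℕ} (s : ℕ) (g : ℕ → Fin w → ℕ) (A : Finset ℕ) : Finset (ℕ × Fin w) :=
  ((A.filter (fun i => i < s)) ×ˢ (univ : Finset (Fin w))).filter (fun k => g k.1 k.2 = s)

theorem mem_Kset {w : ℕ} {s : ℕ} {g : ℕ → Fin w → ℕ} {A : Finset ℕ} {k : ℕ × Fin w} :
    k ∈ Kset s g A ↔ (k.1 ∈ A ∧ k.1 < s) ∧ g k.1 k.2 = s := by
  unfold Kset
  rw [Finset.mem_filter, Finset.mem_product, Finset.mem_filter]
  simp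

/-- the mass of the bin `c` in the slot `σ` -/
noncomputable def mass (P : Painter) {w L : ℕ} (H : Hist) (c : ℕ) (Y : Ps w L → ℕ) : ℝ :=
  avg w L (fun q => ind P H c (Y q))

theorem mass_nonneg (P : Painter) {w L : ℕ} (H : Hist) (c : ℕ) (Y : Ps w L → ℕ) :
    0 ≤ mass P H c Y := avg_nonneg _ _ fun _ => ind_nonneg _ _ _ _

theorem mass_le_one (P : Painter) {w L : ℕ} (H : Hist) (c : ℕ) (Y : Ps w L → ℕ) :
    mass P H c Y ≤ 1 := avg_le_one _ _ fun _ => ind_le_one _ _ _ _

theorem mass_congr (P : Painter) {w L N : ℕ} {H H' : Hist} (c : ℕ) (Y : Ps w L → ℕ)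
    (h : ∀ x < N, H' x = H x) (hY : ∀ q, Y q < N) : mass P H' c Y = mass P H c Y := by
  unfold mass
  congr 1
  funext q
  exact ind_congr P c h (hY q)

/-- one step of the construction -/
structure Next (P : Painter) (w L T s : ℕ) (A : Finset ℕ) (S S' : St w L) : Prop where
  hH : ∀ x < s * w ^ L, S'.H x = S.H x
  hBl : ∀ i < s, S'.Bl i = S.Bl i
  hg : ∀ i < s, S'.g i = S.g i
  hb : ∀ i < s, S'.b i = S.b i
  obj : IsObj P w L (s * w ^ L) S'.H (Kset s S.g A) (fun k => S.Bl k.1 k.2)
    (fun k => S.b k.1) (S'.Bl s)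
  bin : ∃ x, s * w ^ L ≤ x ∧ x < s * w ^ L + w ^ L ∧ P.col x S'.H = S'.b s
  pop : (∃ c, (T : ℝ) * (L + 1) ≤ ∑ σ : Fin w, mass P S'.H c (S'.Bl s σ)) →
    ∀ r < T, (L : ℝ) < ∑ σ ∈ univ.filter (fun σ => S'.g s σ = r),
      mass P S'.H (S'.b s) (S'.Bl s σ)

theorem exists_next (P : Painter) {w L T : ℕ} (hw : 1 ≤ w) (hT : 1 ≤ T) (s : ℕ) (A : Finset ℕ)
    (S : St w L) (hS : ∀ i < s, ∀ σ q, S.Bl i σ q < s * w ^ L) :
    ∃ S', Next P w L T s A S S' := by
  classical
  obtain ⟨H', Bl', h1, h2⟩ := obj_exists P hw L (Kset s S.g A) (fun k => S.b k.1) (s * w ^ L)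
    S.H (fun k => S.Bl k.1 k.2) (fun k hk q => hS k.1 (mem_Kset.1 hk).1.2 k.2 q)
  have hNpos : 0 < w ^ L := Nat.pow_pos hw
  by_cases hp : ∃ c, (T : ℝ) * (L + 1) ≤ ∑ σ : Fin w, mass P H' c (Bl' σ)
  · obtain ⟨c, hc⟩ := hp
    obtain ⟨g', hg'⟩ := grouping (fun σ => mass P H' c (Bl' σ))
      (fun σ => mass_le_one P H' c _) (L : ℝ) (Nat.cast_nonneg _) T univ hc
    refine ⟨⟨H', Function.update S.Bl s Bl', Function.update S.g s g',
      Function.update S.b s c⟩, h1, ?_, ?_, ?_, ?_, ?_, ?_⟩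
    · intro i hi
      exact Function.update_of_ne (by omega) _ _
    · intro i hi
      exact Function.update_of_ne (by omega) _ _
    · intro i hi
      exact Function.update_of_ne (by omega) _ _
    · simp only [Function.update_self]
      exact h2
    · simp only [Function.update_self]
      have hpos : 0 < ∑ σ : Fin w, mass P H' c (Bl' σ) := by
        refine lt_of_lt_of_le ?_ hc
        have : (0 : ℝ) < T := by exact_mod_cast hT
        positivity
      have hex : ∃ σ : Fin w, 0 < mass P H' c (Bl' σ) := by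
        by_contra hno
        push Not at hno
        exact absurd hpos (not_lt.2 (Finset.sum_nonpos fun σ _ => hno σ))
      obtain ⟨σ, hσ⟩ := hex
      obtain ⟨q, hq⟩ := avg_pos _ _ hσ
      exact ⟨Bl' σ q, (h2.bl_mem σ q).1, (h2.bl_mem σ q).2, ind_pos hq⟩
    · simp only [Function.update_self]
      intro _ r hr
      exact hg' r hr
  · refine ⟨⟨H', Function.update S.Bl s Bl', S.g,
      Function.update S.b s (P.col (s * w ^ L) H')⟩, h1, ?_, ?_, ?_, ?_, ?_, ?_⟩
    · intro i hi
      exact Function.update_of_ne (by omega) _ _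
    · intro i _
      rfl
    · intro i hi
      exact Function.update_of_ne (by omega) _ _
    · simp only [Function.update_self]
      exact h2
    · simp only [Function.update_self]
      exact ⟨s * w ^ L, le_rfl, by omega, rfl⟩
    · simp only [Function.update_self]
      intro h
      exact absurd h hp

open Classical in
/-- the construction -/
noncomputable def run (P : Painter) (w L T : ℕ) (E : Hist) : ℕ → St w L
  | 0 => ⟨fun _ => ∅, fun _ _ _ => 0, fun _ _ => 0, fun _ => 0⟩
  | s + 1 => if h : ∃ S', Next P w L T s (E s) (run P w L T E s) S' then Classical.choose h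
      else run P w L T E s

theorem run_congr (P : Painter) (w L T : ℕ) {E E' : Hist} {s : ℕ} (h : ∀ i < s, E' i = E i) :
    run P w L T E' s = run P w L T E s := by
  induction s with
  | zero => rfl
  | succ s ih =>
    have h1 := ih fun i hi => h i (by omega)
    simp only [run]
    rw [h1, h s (by omega)]

/-- the properties of the construction -/
structure Good (P : Painter) (w L T : ℕ) (E : Hist) (s : ℕ) (S : St w L) : Prop where
  obj : ∀ i < s, IsObj P w L (i * w ^ L) S.H (Kset i S.g (E i)) (fun k => S.Bl k.1 k.2)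
    (fun k => S.b k.1) (S.Bl i)
  bin : ∀ i < s, ∃ x, i * w ^ L ≤ x ∧ x < i * w ^ L + w ^ L ∧ P.col x S.H = S.b i
  pop : ∀ i < s, (∃ c, (T : ℝ) * (L + 1) ≤ ∑ σ : Fin w, mass P S.H c (S.Bl i σ)) →
    ∀ r < T, (L : ℝ) < ∑ σ ∈ univ.filter (fun σ => S.g i σ = r),
      mass P S.H (S.b i) (S.Bl i σ)

theorem IsObj.congr' {P : Painter} {w : ℕ} {ι : Type} {j n : ℕ} {H : Hist} {K : Finset ι}
    {Z Z' : ι → Ps w j → ℕ} {cc cc' : ι → ℕ} {Bl : Fin w → Ps w j → ℕ}
    (h : IsObj P w j n H K Z cc Bl) (hZ : ∀ k ∈ K, Z' k = Z k)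
    (hc : ∀ k ∈ K, cc' k = cc k) : IsObj P w j n H K Z' cc' Bl where
  bl_mem := h.bl_mem
  avoid c hc' x hx1 hx2 := by
    refine h.avoid c (hc'.trans_le (le_of_eq ?_)) x hx1 hx2
    have e : K.filter (fun k => cc' k = c) = K.filter (fun k => cc k = c) :=
      Finset.filter_congr fun k hk => by rw [hc k hk]
    rw [e]
    refine Finset.sum_congr rfl fun k hk => ?_
    rw [hZ k (Finset.mem_filter.1 hk).1]
  colour τ hτ act τs κs hs := by
    obtain ⟨χ, κ, h1, h2, h3⟩ := h.colour τ hτ act τs κs hs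
    refine ⟨χ, κ, h1, fun x hx1 hx2 y hy => ?_, h3⟩
    obtain ⟨k, hk, q, hq1, hq2⟩ := h2 x hx1 hx2 y hy
    exact ⟨k, hk, q, by rw [hZ k hk]; exact hq1, hq2⟩

theorem Good.step {P : Painter} {w L T : ℕ} {E : Hist} {s : ℕ} {S S' : St w L}
    (h : Good P w L T E s S) (hn : Next P w L T s (E s) S S') :
    Good P w L T E (s + 1) S' := by
  have hle : ∀ i < s, i * w ^ L + w ^ L ≤ s * w ^ L := by
    intro i hi
    have : (i + 1) * w ^ L ≤ s * w ^ L := Nat.mul_le_mul_right _ hi
    rw [Nat.add_mul, one_mul] at this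
    exact this
  have hK : ∀ i ≤ s, ∀ A, Kset i S'.g A = Kset i S.g A := by
    intro i hi A
    ext k
    rw [mem_Kset, mem_Kset]
    constructor
    · rintro ⟨⟨h1, h2⟩, h3⟩
      refine ⟨⟨h1, h2⟩, ?_⟩
      rw [← hn.hg k.1 (by omega)]; exact h3
    · rintro ⟨⟨h1, h2⟩, h3⟩
      refine ⟨⟨h1, h2⟩, ?_⟩
      rw [hn.hg k.1 (by omega)]; exact h3
  have hcong : ∀ i ≤ s, ∀ {Bl}, IsObj P w L (i * w ^ L) S'.H (Kset i S.g (E i))
      (fun k => S.Bl k.1 k.2) (fun k => S.b k.1) Bl →
      IsObj P w L (i * w ^ L) S'.H (Kset i S'.g (E i))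
      (fun k => S'.Bl k.1 k.2) (fun k => S'.b k.1) Bl := by
    intro i hi Bl hobj
    rw [hK i hi]
    refine hobj.congr' ?_ ?_
    · intro k hk
      have := (mem_Kset.1 hk).1.2
      rw [hn.hBl k.1 (by omega)]
    · intro k hk
      have := (mem_Kset.1 hk).1.2
      exact hn.hb k.1 (by omega)
  refine ⟨?_, ?_, ?_⟩
  · intro i hi
    rcases Nat.lt_succ_iff_lt_or_eq.1 hi with h1 | h1
    · refine hcong i h1.le ?_
      rw [hn.hBl i h1]
      refine (h.obj i h1).congr ?_ ?_
      · intro k hk q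
        have h2 := (mem_Kset.1 hk).1.2
        have h3 := ((h.obj k.1 (by omega)).bl_mem k.2 q).2
        have h4 : (k.1 + 1) * w ^ L ≤ i * w ^ L := Nat.mul_le_mul_right _ h2
        rw [Nat.add_mul, one_mul] at h4
        omega
      · intro x hx
        exact hn.hH x (hx.trans_le (hle i h1))
    · subst h1
      exact hcong i le_rfl hn.obj
  · intro i hi
    rcases Nat.lt_succ_iff_lt_or_eq.1 hi with h1 | h1
    · obtain ⟨x, hx1, hx2, hx3⟩ := h.bin i h1
      refine ⟨x, hx1, hx2, ?_⟩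
      rw [hn.hb i h1, ← hx3]
      exact col_congr P hn.hH (hx2.trans_le (hle i h1))
    · subst h1
      exact hn.bin
  · intro i hi
    rcases Nat.lt_succ_iff_lt_or_eq.1 hi with h1 | h1
    · have hm : ∀ c σ, mass P S'.H c (S'.Bl i σ) = mass P S.H c (S.Bl i σ) := by
        intro c σ
        rw [hn.hBl i h1]
        exact mass_congr P c _ hn.hH fun q =>
          (((h.obj i h1).bl_mem σ q).2).trans_le (hle i h1)
      simp only [hm, hn.hb i h1, hn.hg i h1]
      exact h.pop i h1
    · subst h1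
      exact hn.pop

theorem good_run (P : Painter) {w L T : ℕ} (hw : 1 ≤ w) (hT : 1 ≤ T) (E : Hist) (s : ℕ) :
    Good P w L T E s (run P w L T E s) := by
  induction s with
  | zero =>
    exact ⟨fun i hi => absurd hi (Nat.not_lt_zero _), fun i hi => absurd hi (Nat.not_lt_zero _),
      fun i hi => absurd hi (Nat.not_lt_zero _)⟩
  | succ s ih =>
    have hex : ∃ S', Next P w L T s (E s) (run P w L T E s) S' := by
      refine exists_next P hw hT s (E s) _ ?_
      intro i hi σ q
      have h3 := ((ih.obj i hi).bl_mem σ q).2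
      have h4 : (i + 1) * w ^ L ≤ s * w ^ L := Nat.mul_le_mul_right _ hi
      rw [Nat.add_mul, one_mul] at h4
      omega
    have e : run P w L T E (s + 1) = Classical.choose hex := by
      simp only [run]
      rw [dif_pos hex]
    rw [e]
    exact ih.step (Classical.choose_spec hex)

theorem next_run (P : Painter) {w L T : ℕ} (hw : 1 ≤ w) (hT : 1 ≤ T) (E : Hist) (s : ℕ) :
    Next P w L T s (E s) (run P w L T E s) (run P w L T E (s + 1)) := by
  have ih := good_run P hw hT E (L := L) s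
  have hex : ∃ S', Next P w L T s (E s) (run P w L T E s) S' := by
    refine exists_next P hw hT s (E s) _ ?_
    intro i hi σ q
    have h3 := ((ih.obj i hi).bl_mem σ q).2
    have h4 : (i + 1) * w ^ L ≤ s * w ^ L := Nat.mul_le_mul_right _ hi
    rw [Nat.add_mul, one_mul] at h4
    omega
  have e : run P w L T E (s + 1) = Classical.choose hex := by
    simp only [run]
    rw [dif_pos hex]
  rw [e]
  exact Classical.choose_spec hex

/-- the labels are stable -/
theorem run_b (P : Painter) {w L T : ℕ} (hw : 1 ≤ w) (hT : 1 ≤ T) (E : Hist) {i s : ℕ}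
    (h : i < s) : (run P w L T E s).b i = (run P w L T E (i + 1)).b i := by
  induction s with
  | zero => exact absurd h (Nat.not_lt_zero _)
  | succ s ih =>
    rcases Nat.lt_succ_iff_lt_or_eq.1 h with h1 | h1
    · rw [(next_run P hw hT E s).hb i h1]
      exact ih h1
    · subst h1; rfl

theorem run_H (P : Painter) {w L T : ℕ} (hw : 1 ≤ w) (hT : 1 ≤ T) (E : Hist) {i s : ℕ}
    (h : i ≤ s) : ∀ x < i * w ^ L, (run P w L T E s).H x = (run P w L T E i).H x := by
  induction s with
  | zero =>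
    intro x _
    have : i = 0 := by omega
    rw [this]
  | succ s ih =>
    intro x hx
    rcases Nat.lt_or_ge s i with h1 | h1
    · have : i = s + 1 := by omega
      rw [this]
    · rw [(next_run P hw hT E s).hH x (hx.trans_le (Nat.mul_le_mul_right _ h1))]
      exact ih h1 x hx

/-- **the inner graph is 3-colourable** -/
theorem Good.colour {P : Painter} {w L T : ℕ} {E : Hist} {s : ℕ} {S : St w L} (hw : 1 ≤ w)
    (h : Good P w L T E s S) {p : ℕ} (X : Fin p → Ty L) (hX1 : ∀ a, Ok L (X a))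
    (hX2 : ∀ a b, a ≠ b → Adm L (X a) (X b)) (f : ℕ → Fin p)
    (hf : ∀ j < s, ∀ i ∈ E j, i < j → f i ≠ f j) :
    ∃ χ : ℕ → Fin 3, ∀ x < s * w ^ L, ∀ y ∈ S.H x, y < x → χ y ≠ χ x := by
  classical
  have hNpos : 0 < w ^ L := Nat.pow_pos hw
  -- downward induction
  have key : ∀ d ≤ s, ∃ (χ : ℕ → Fin 3) (κ : ℕ → (ℕ × Fin w) → Ps w L → Fin 3),
      ∀ j, s - d ≤ j → j < s →
        (∀ k ∈ Kset j S.g (E j), Pt w L (X (f j)) (κ j k)) ∧
        (∀ x, j * w ^ L ≤ x → x < j * w ^ L + w ^ L → ∀ y ∈ S.H x,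
          ∃ k ∈ Kset j S.g (E j), ∃ q, y = S.Bl k.1 k.2 q ∧ χ x = κ j k q) ∧
        (∀ σ : Fin w, S.g j σ < s → (j, σ) ∈ Kset (S.g j σ) S.g (E (S.g j σ)) →
          ∀ q, χ (S.Bl j σ q) ≠ κ (S.g j σ) (j, σ) q) := by
    intro d
    induction d with
    | zero =>
      intro _
      exact ⟨fun _ => 0, fun _ _ _ => 0, fun j h1 h2 => by omega⟩
    | succ d ih =>
      intro hd
      obtain ⟨χ, κ, hχ⟩ := ih (by omega)
      have hm : s - (d + 1) < s := by omega
      set m := s - (d + 1) with hmdef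
      have hmd : s - d = m + 1 := by omega
      obtain ⟨χ', κ', h1, h2, h3⟩ := (h.obj m hm).colour (X (f m)) (hX1 _)
        (fun σ => S.g m σ < s ∧ (m, σ) ∈ Kset (S.g m σ) S.g (E (S.g m σ)))
        (fun σ => X (f (S.g m σ))) (fun σ => κ (S.g m σ) (m, σ)) (by
          rintro σ ⟨h1, h2⟩
          have h3 := mem_Kset.1 h2
          have h4 : m < S.g m σ := h3.1.2
          exact ⟨hX2 _ _ (hf _ h1 m h3.1.1 h4), (hχ _ (by omega) h1).1 _ h2⟩)
      refine ⟨fun x => if x < m * w ^ L + w ^ L then χ' x else χ x,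
        Function.update κ m κ', ?_⟩
      intro j hj1 hj2
      rcases Nat.lt_or_ge m j with hmj | hmj
      · -- later objects
        have h4 := hχ j (by omega) hj2
        have hge : m * w ^ L + w ^ L ≤ j * w ^ L := by
          have : (m + 1) * w ^ L ≤ j * w ^ L := Nat.mul_le_mul_right _ hmj
          rw [Nat.add_mul, one_mul] at this
          exact this
        refine ⟨?_, ?_, ?_⟩
        · rw [Function.update_of_ne (by omega)]
          exact h4.1
        · intro x hx1 hx2 y hy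
          rw [Function.update_of_ne (by omega)]
          have : ¬ x < m * w ^ L + w ^ L := by omega
          simp only [this, if_false]
          exact h4.2.1 x hx1 hx2 y hy
        · intro σ hσ1 hσ2 q
          have h5 : j < S.g j σ := (mem_Kset.1 hσ2).1.2
          rw [Function.update_of_ne (by omega)]
          have h6 := ((h.obj j hj2).bl_mem σ q).1
          have : ¬ S.Bl j σ q < m * w ^ L + w ^ L := by omega
          simp only [this, if_false]
          exact h4.2.2 σ hσ1 hσ2 q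
      · have hjm : j = m := by omega
        subst hjm
        refine ⟨?_, ?_, ?_⟩
        · rw [Function.update_self]
          exact h1
        · intro x hx1 hx2 y hy
          rw [Function.update_self]
          simp only [hx2, if_true]
          exact h2 x hx1 hx2 y hy
        · intro σ hσ1 hσ2 q
          have h5 : m < S.g m σ := (mem_Kset.1 hσ2).1.2
          rw [Function.update_of_ne (by omega)]
          have h6 := ((h.obj m hj2).bl_mem σ q).2
          simp only [h6, if_true]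
          exact h3 σ ⟨hσ1, hσ2⟩ q
  obtain ⟨χ, κ, hχ⟩ := key s le_rfl
  refine ⟨χ, ?_⟩
  intro x hx y hy hyx
  have hjs : x / w ^ L < s := by
    rw [Nat.div_lt_iff_lt_mul hNpos]; exact hx
  set j := x / w ^ L with hj
  have hj1 : j * w ^ L ≤ x := Nat.div_mul_le_self _ _
  have hj2 : x < j * w ^ L + w ^ L := by
    have h4 := Nat.div_add_mod x (w ^ L)
    have h5 := Nat.mod_lt x hNpos
    rw [← hj] at h4
    rw [Nat.mul_comm] at h4
    omega
  obtain ⟨k, hk, q, hq1, hq2⟩ := (hχ j (by rw [Nat.sub_self]; exact Nat.zero_le _) hjs).2.1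
    x hj1 hj2 y hy
  have hk' := mem_Kset.1 hk
  have h5 := (hχ k.1 (by rw [Nat.sub_self]; exact Nat.zero_le _)
    (hk'.1.2.trans hjs)).2.2 k.2 (by rw [hk'.2]; exact hjs)
    (by rw [hk'.2]; exact hk) q
  rw [hk'.2] at h5
  rw [hq1, hq2]
  exact h5

/-- the bins of adjacent objects are different -/
theorem Good.avoid {P : Painter} {w L T : ℕ} {E : Hist} {s : ℕ} {S : St w L}
    (h : Good P w L T E s S) {i j : ℕ} (hij : i < j) (hjs : j < s) (hjT : j < T) (hiE : i ∈ E j)
    (hpop : ∃ c, (T : ℝ) * (L + 1) ≤ ∑ σ : Fin w, mass P S.H c (S.Bl i σ)) :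
    S.b i ≠ S.b j := by
  classical
  obtain ⟨x, hx1, hx2, hx3⟩ := h.bin j hjs
  rw [← hx3]
  refine Ne.symm ((h.obj j hjs).avoid (S.b i) ?_ x hx1 hx2)
  have h1 := h.pop i (by omega) hpop j hjT
  refine h1.trans_le ?_
  have hinj : Function.Injective (fun σ : Fin w => ((i, σ) : ℕ × Fin w)) := by
    intro a b hab
    exact (Prod.mk.inj hab).2
  have hsub : (univ.filter (fun σ : Fin w => S.g i σ = j)).map ⟨_, hinj⟩ ⊆
      (Kset j S.g (E j)).filter (fun k => S.b k.1 = S.b i) := by
    intro k hk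
    rw [Finset.mem_map] at hk
    obtain ⟨σ, hσ, rfl⟩ := hk
    rw [Finset.mem_filter] at hσ
    rw [Finset.mem_filter, mem_Kset]
    exact ⟨⟨⟨hiE, hij⟩, hσ.2⟩, rfl⟩
  calc ∑ σ ∈ univ.filter (fun σ => S.g i σ = j), mass P S.H (S.b i) (S.Bl i σ)
      = ∑ k ∈ (univ.filter (fun σ : Fin w => S.g i σ = j)).map ⟨_, hinj⟩,
        mass P S.H (S.b i) (S.Bl k.1 k.2) := by rw [Finset.sum_map]; rfl
    _ ≤ ∑ k ∈ (Kset j S.g (E j)).filter (fun k => S.b k.1 = S.b i),
        mass P S.H (S.b i) (S.Bl k.1 k.2) :=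
      Finset.sum_le_sum_of_subset_of_nonneg hsub fun k _ _ => mass_nonneg _ _ _ _

/-- with few bins there is a popular bin -/
theorem Good.popular {P : Painter} {w L T B : ℕ} {E : Hist} {s : ℕ} {S : St w L}
    (h : Good P w L T E s S) (hw : 1 ≤ w) (hwB : w = T * B * (L + 1)) {i : ℕ} (hi : i < s)
    (hB : (P.bins S.H (range (i * w ^ L + w ^ L))).card ≤ B) :
    ∃ c, (T : ℝ) * (L + 1) ≤ ∑ σ : Fin w, mass P S.H c (S.Bl i σ) := by
  classical
  set C := P.bins S.H (range (i * w ^ L + w ^ L)) with hC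
  by_contra hno
  push Not at hno
  have h1 : ∑ c ∈ C, ∑ σ : Fin w, mass P S.H c (S.Bl i σ) = w := by
    rw [Finset.sum_comm]
    have h2 : ∀ σ : Fin w, ∑ c ∈ C, mass P S.H c (S.Bl i σ) = 1 := by
      intro σ
      unfold mass
      rw [← avg_sum]
      have h3 : (fun q => ∑ c ∈ C, ind P S.H c (S.Bl i σ q)) = fun _ => (1 : ℝ) := by
        funext q
        unfold ind
        rw [Finset.sum_ite_eq]
        rw [if_pos]
        have := ((h.obj i hi).bl_mem σ q).2
        exact Finset.mem_image_of_mem _ (Finset.mem_range.2 this)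
      rw [h3]
      exact avg_one hw L
    simp [h2]
  have hCne : C.Nonempty := by
    rw [hC]
    have hNpos : 0 < w ^ L := Nat.pow_pos hw
    exact ⟨_, Finset.mem_image_of_mem _ (Finset.mem_range.2 (by omega : 0 < i * w ^ L + w ^ L))⟩
  have h2 : ∑ c ∈ C, ∑ σ : Fin w, mass P S.H c (S.Bl i σ) < ∑ _c ∈ C, (T : ℝ) * (L + 1) :=
    Finset.sum_lt_sum_of_nonempty hCne fun c _ => hno c
  rw [h1, Finset.sum_const, nsmul_eq_mul] at h2
  have h3 : (C.card : ℝ) * ((T : ℝ) * (L + 1)) ≤ B * ((T : ℝ) * (L + 1)) := by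
    refine mul_le_mul_of_nonneg_right (by exact_mod_cast hB) (by positivity)
  have h4 : (w : ℝ) = B * ((T : ℝ) * (L + 1)) := by
    rw [hwB]; push_cast; ring
  linarith

end Pool.Agent.H64.OC2
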