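import Pool.Agent.H64.OC2.Outer
import Pool.Agent.H64.OC.Bridge

/-!
# On-line colouring: from algorithms for `3`-colourable graphs to algorithms for `p`-colourable
graphs
-/

set_option autoImplicit false

namespace Pool.Agent.H64.OC2

open Finset
open Pool.Agent.H64.OC

/-- the history of an on-line graph -/
noncomputable def hist {N : ℕ} (G : SimpleGraph (Fin N)) : Hist := by
  classical
  exact fun j => (range j).filter (fun i => ∃ (h1 : i < N) (h2 : j < N), G.Adj ⟨i, h1⟩ ⟨j, h2⟩)

theorem mem_hist {N : ℕ} {G : SimpleGraph (Fin N)} {i j : ℕ} :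
    i ∈ hist G j ↔ i < j ∧ ∃ (h1 : i < N) (h2 : j < N), G.Adj ⟨i, h1⟩ ⟨j, h2⟩ := by
  classical
  unfold hist
  rw [Finset.mem_filter, Finset.mem_range]

theorem hist_initial {N : ℕ} (G : SimpleGraph (Fin N)) (i : Fin N) {j : ℕ} (hj : j < i.val + 1) :
    hist (initial G i) j = hist G j := by
  ext a
  rw [mem_hist, mem_hist]
  refine and_congr_right fun ha => ?_
  constructor
  · rintro ⟨h1, h2, h3⟩
    have := i.isLt
    exact ⟨by omega, by omega, h3⟩
  · rintro ⟨h1, h2, h3⟩
    exact ⟨by omega, hj, h3⟩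

theorem initial_colorable {N p : ℕ} {G : SimpleGraph (Fin N)} (h : G.Colorable p) (i : Fin N) :
    (initial G i).Colorable p := by
  obtain ⟨C⟩ := h
  exact ⟨SimpleGraph.Coloring.mk (fun a => C (Fin.castLE i.isLt a)) fun {a b} hab => C.valid hab⟩

theorem initial_colorable' {N p : ℕ} {G : SimpleGraph (Fin N)} {i j : Fin N} (hij : i ≤ j)
    (h : (initial G j).Colorable p) : (initial G i).Colorable p := by
  obtain ⟨C⟩ := h
  have hle : i.val + 1 ≤ j.val + 1 := Nat.succ_le_succ hij
  exact ⟨SimpleGraph.Coloring.mk (fun a => C (Fin.castLE hle a)) fun {a b} hab => C.valid hab⟩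

/-- the number of bins of the painter on a good history -/
theorem bins_le {A : OnlineAlg} {n B : ℕ}
    (hA : ∀ G : SimpleGraph (Fin n), G.Colorable 3 → ∀ i j, G.Adj i j →
      A.colour G i ≠ A.colour G j)
    (hB : ∀ G : SimpleGraph (Fin n), G.Colorable 3 → A.numColours G ≤ B)
    {H : Hist} {M : ℕ} (hM : M ≤ n)
    (hχ : ∃ χ : ℕ → Fin 3, ∀ x < M, ∀ y ∈ H x, y < x → χ y ≠ χ x) :
    ((painter A n hA).bins H (range M)).card ≤ B := by
  classical
  rcases Nat.eq_zero_or_pos M with h0 | h0
  · subst h0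
    simp [Painter.bins]
  obtain ⟨χ, hχ⟩ := hχ
  have hc : Col3 H (M - 1) := ⟨χ, fun x hx => hχ x (by omega)⟩
  have hsub : (painter A n hA).bins H (range M) ⊆
      (univ.image (A.colour (hg (cut H (M - 1)) n))).image (fun t => 2 * t) := by
    intro b hb
    unfold Painter.bins at hb
    rw [mem_image] at hb
    obtain ⟨i, hi, rfl⟩ := hb
    rw [mem_range] at hi
    have hin : i < n := by omega
    have h1 : i < n ∧ Col3 H i := ⟨hin, hc.mono (by omega)⟩
    rw [mem_image]
    refine ⟨A.colour (hg (cut H (M - 1)) n) ⟨i, hin⟩, mem_image_of_mem _ (mem_univ _), ?_⟩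
    unfold OnlineAlg.colour
    rw [initial_hg]
    have e1 : hg (cut H (M - 1)) (i + 1) = hg H (i + 1) :=
      hg_congr fun x hx => cut_of_le (by omega)
    simp only [painter, h1, and_self, if_true, e1]
  calc ((painter A n hA).bins H (range M)).card ≤ _ := Finset.card_le_card hsub
    _ ≤ (univ.image (A.colour (hg (cut H (M - 1)) n))).card := Finset.card_image_le
    _ ≤ B := hB _ (colorable_cut hc n)

/-- the situation of the reduction -/
structure Red (A : OnlineAlg) (n B T L w p : ℕ) : Prop where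
  hA : ∀ G : SimpleGraph (Fin n), G.Colorable 3 → ∀ i j, G.Adj i j →
      A.colour G i ≠ A.colour G j
  hB : ∀ G : SimpleGraph (Fin n), G.Colorable 3 → A.numColours G ≤ B
  B1 : 1 ≤ B
  T1 : 1 ≤ T
  p1 : 1 ≤ p
  hw : w = T * B * (L + 1)
  hn : T * w ^ L ≤ n
  fam : Fam L p

theorem Red.w1 {A : OnlineAlg} {n B T L w p : ℕ} (h : Red A n B T L w p) : 1 ≤ w := by
  rw [h.hw]
  exact Nat.mul_pos (Nat.mul_pos h.T1 h.B1) (Nat.succ_pos L)

/-- the state for an outer graph -/
noncomputable def Red.st {A : OnlineAlg} {n B T L w p : ℕ} (h : Red A n B T L w p)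
    (E : Hist) (s : ℕ) : St w L := run (painter A n h.hA) w L T E s

theorem Red.good {A : OnlineAlg} {n B T L w p : ℕ} (h : Red A n B T L w p) (E : Hist) (s : ℕ) :
    Good (painter A n h.hA) w L T E s (h.st E s) := good_run _ h.w1 h.T1 E s

theorem Red.colour {A : OnlineAlg} {n B T L w p : ℕ} (h : Red A n B T L w p) {N : ℕ}
    {G : SimpleGraph (Fin N)} (hG : G.Colorable p) (s : ℕ) :
    ∃ χ : ℕ → Fin 3, ∀ x < s * w ^ L, ∀ y ∈ (h.st (hist G) s).H x, y < x → χ y ≠ χ x := by
  obtain ⟨X, hX1, hX2⟩ := h.fam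
  obtain ⟨C⟩ := hG
  refine (h.good (hist G) s).colour h.w1 X hX1 hX2
    (fun i => if hi : i < N then C ⟨i, hi⟩ else ⟨0, h.p1⟩) ?_
  intro j hj i hi hij
  obtain ⟨_, h1, h2, h3⟩ := mem_hist.1 hi
  simp only [h1, h2, dif_pos]
  exact C.valid h3

theorem Red.bins {A : OnlineAlg} {n B T L w p : ℕ} (h : Red A n B T L w p) {N : ℕ}
    {G : SimpleGraph (Fin N)} (hG : G.Colorable p) {s : ℕ} (hsT : s ≤ T) :
    ((painter A n h.hA).bins (h.st (hist G) s).H (range (s * w ^ L))).card ≤ B :=
  bins_le h.hA h.hB ((Nat.mul_le_mul_right _ hsT).trans h.hn) (h.colour hG s)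

theorem Red.ne {A : OnlineAlg} {n B T L w p : ℕ} (h : Red A n B T L w p) {N : ℕ}
    {G : SimpleGraph (Fin N)} (hG : G.Colorable p) {s : ℕ} (hsT : s ≤ T)
    {i j : ℕ} (hij : i < j) (hj : j < s) (hi : i ∈ hist G j) :
    (h.st (hist G) s).b i ≠ (h.st (hist G) s).b j := by
  refine (h.good (hist G) s).avoid hij hj (by omega) hi ?_
  refine (h.good (hist G) s).popular h.w1 h.hw (hij.trans hj) ?_
  refine (Finset.card_le_card ((painter A n h.hA).bins_mono _ ?_)).trans (h.bins hG hsT)
  intro x hx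
  rw [Finset.mem_range] at hx ⊢
  have h1 : (i + 1) * w ^ L ≤ s * w ^ L := Nat.mul_le_mul_right _ (by omega)
  rw [Nat.add_mul, one_mul] at h1
  omega

open Classical in
/-- the algorithm for `p`-colourable graphs -/
noncomputable def Red.alg {A : OnlineAlg} {n B T L w p : ℕ} (h : Red A n B T L w p) :
    OnlineAlg := fun s G =>
  if s < T ∧ G.Colorable p then 2 * (h.st (hist G) (s + 1)).b s else 2 * s + 1

theorem Red.alg_colour {A : OnlineAlg} {n B T L w p : ℕ} (h : Red A n B T L w p) {N : ℕ}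
    (G : SimpleGraph (Fin N)) (i : Fin N) (h1 : i.val < T) (h2 : (initial G i).Colorable p)
    {s : ℕ} (hs : i.val < s) :
    h.alg.colour G i = 2 * (h.st (hist G) s).b i.val := by
  unfold OnlineAlg.colour Red.alg
  rw [if_pos ⟨h1, h2⟩]
  unfold Red.st
  rw [run_b _ h.w1 h.T1 (hist G) hs]
  rw [run_congr _ w L T (E := hist G) (E' := hist (initial G i)) (s := i.val + 1)
    (fun j hj => hist_initial G i hj)]

theorem Red.alg_colour' {A : OnlineAlg} {n B T L w p : ℕ} (h : Red A n B T L w p) {N : ℕ}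
    (G : SimpleGraph (Fin N)) (i : Fin N) (h1 : ¬ (i.val < T ∧ (initial G i).Colorable p)) :
    h.alg.colour G i = 2 * i.val + 1 := by
  unfold OnlineAlg.colour Red.alg
  rw [if_neg h1]

theorem Red.alg_proper {A : OnlineAlg} {n B T L w p : ℕ} (h : Red A n B T L w p) :
    h.alg.Proper := by
  have key : ∀ (N : ℕ) (G : SimpleGraph (Fin N)) (i j : Fin N), i < j → G.Adj i j →
      h.alg.colour G i ≠ h.alg.colour G j := by
    intro N G i j hij hadj
    by_cases hj : j.val < T ∧ (initial G j).Colorable p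
    · have hiv : i.val < j.val := hij
      have hi : i.val < T ∧ (initial G i).Colorable p :=
        ⟨by omega, initial_colorable' hij.le hj.2⟩
      rw [h.alg_colour G i hi.1 hi.2 (s := j.val + 1) (by omega),
        h.alg_colour G j hj.1 hj.2 (s := j.val + 1) (by omega)]
      have e : h.st (hist G) (j.val + 1) = h.st (hist (initial G j)) (j.val + 1) := by
        unfold Red.st
        exact (run_congr _ w L T (E := hist G) (E' := hist (initial G j)) (s := j.val + 1)
          (fun a ha => hist_initial G j ha)).symm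
      rw [e]
      have h1 := h.ne hj.2 (s := j.val + 1) (by omega) hiv (Nat.lt_succ_self _) (by
        rw [hist_initial G j (Nat.lt_succ_self _), mem_hist]
        exact ⟨hiv, i.isLt, j.isLt, hadj⟩)
      omega
    · rw [h.alg_colour' G j hj]
      by_cases hi : i.val < T ∧ (initial G i).Colorable p
      · rw [h.alg_colour G i hi.1 hi.2 (Nat.lt_succ_self _)]
        omega
      · rw [h.alg_colour' G i hi]
        have : i.val < j.val := hij
        omega
  intro N G i j hadj
  rcases lt_trichotomy i j with h1 | h1 | h1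
  · exact key N G i j h1 hadj
  · exact absurd h1 hadj.ne
  · exact (key N G j i h1 hadj.symm).symm

theorem Red.alg_count {A : OnlineAlg} {n B T L w p : ℕ} (h : Red A n B T L w p)
    (G : SimpleGraph (Fin T)) (hG : G.Colorable p) : h.alg.numColours G ≤ B := by
  classical
  unfold OnlineAlg.numColours
  have hsub : univ.image (h.alg.colour G) ⊆
      ((painter A n h.hA).bins (h.st (hist G) T).H (range (T * w ^ L))).image
        (fun t => 2 * t) := by
    intro c hc
    rw [mem_image] at hc
    obtain ⟨i, _, rfl⟩ := hc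
    rw [h.alg_colour G i i.isLt (initial_colorable hG i) i.isLt]
    obtain ⟨x, hx1, hx2, hx3⟩ := (h.good (hist G) T).bin i.val i.isLt
    rw [← hx3]
    refine mem_image_of_mem (fun t => 2 * t) (mem_image_of_mem _ (Finset.mem_range.2 ?_))
    have h1 : (i.val + 1) * w ^ L ≤ T * w ^ L := Nat.mul_le_mul_right _ i.isLt
    rw [Nat.add_mul, one_mul] at h1
    omega
  calc (univ.image (h.alg.colour G)).card ≤ _ := Finset.card_le_card hsub
    _ ≤ _ := Finset.card_image_le
    _ ≤ B := h.bins hG le_rfl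

theorem phi_le_self (k n : ℕ) : phi k n ≤ n := by
  refine Nat.sInf_le ⟨fun s _ => s, ?_, ?_⟩
  · intro n G i j hij h
    unfold OnlineAlg.colour at h
    exact hij.ne (Fin.ext h)
  · intro G _
    unfold OnlineAlg.numColours
    exact Finset.card_image_le.trans (by simp)

/-- **The reduction.** -/
theorem phi_reduction {p T L n : ℕ} (hp : 1 ≤ p) (hT : 1 ≤ T) (hfam : Fam L p)
    (hn : T ^ (2 * L + 1) * (L + 1) ^ L ≤ n) : phi p T ≤ phi 3 n := by
  obtain ⟨A, hA, hle⟩ := Nat.sInf_mem (phi_set_nonempty 3 n)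
  set B := phi 3 n with hB
  rcases Nat.lt_or_ge B T with hBT | hBT
  · have hn1 : 1 ≤ n := by
      refine le_trans ?_ hn
      exact Nat.mul_pos (Nat.pow_pos hT) (Nat.pow_pos (Nat.succ_pos L))
    have hB1 : 1 ≤ B := by
      rcases one_le_phi (k := 3) hn1 with h | h
      · exact h
      · omega
    have hred : Red A n B T L (T * B * (L + 1)) p := by
      refine ⟨fun G _ i j hij => hA n G i j hij, hle, hB1, hT, hp, rfl, ?_, hfam⟩
      calc T * (T * B * (L + 1)) ^ L ≤ T * (T * T * (L + 1)) ^ L := by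
            refine Nat.mul_le_mul_left _ (Nat.pow_le_pow_left ?_ _)
            exact Nat.mul_le_mul_right _ (Nat.mul_le_mul_left _ hBT.le)
        _ = T ^ (2 * L + 1) * (L + 1) ^ L := by
            rw [mul_pow, ← sq, ← pow_mul, pow_succ]
            ring
        _ ≤ n := hn
    exact Nat.sInf_le ⟨hred.alg, hred.alg_proper, hred.alg_count⟩
  · exact (phi_le_self p T).trans hBT

theorem phi_mono_left {j k n : ℕ} (h : j ≤ k) : phi j n ≤ phi k n := by
  obtain ⟨A, hA, hle⟩ := Nat.sInf_mem (phi_set_nonempty k n)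
  exact Nat.sInf_le ⟨A, hA, fun G hG => hle G (hG.mono h)⟩

theorem le_phi_self (n : ℕ) : n ≤ phi n n := by
  obtain ⟨A, hA, hle⟩ := Nat.sInf_mem (phi_set_nonempty n n)
  have h1 : (⊤ : SimpleGraph (Fin n)).Colorable n :=
    ⟨SimpleGraph.Coloring.mk id fun {a b} hab => hab.ne⟩
  refine le_trans ?_ (hle ⊤ h1)
  unfold OnlineAlg.numColours
  rw [Finset.card_image_of_injective]
  · simp
  · intro i j hij
    by_contra hne
    exact hA n ⊤ i j ((SimpleGraph.top_adj i j).2 hne) hij

/-- **Reduction to three colours.** -/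
theorem phi_le_phi_three {p n : ℕ} (hn : 1 ≤ n) :
    phi p n ≤ phi 3 (n ^ (2 * logStar p + 7) * (logStar p + 4) ^ (logStar p + 3)) := by
  rcases Nat.eq_zero_or_pos p with hp | hp
  · subst hp
    have : phi 0 n ≤ 0 := by
      refine Nat.sInf_le ⟨fun s _ => s, ?_, ?_⟩
      · intro n G i j hij h
        unfold OnlineAlg.colour at h
        exact hij.ne (Fin.ext h)
      · intro G hG
        obtain ⟨C⟩ := hG
        exact (C ⟨0, hn⟩).elim0
    exact this.trans (Nat.zero_le _)
  · refine phi_reduction hp hn (fam_logStar p) (le_of_eq ?_)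
    congr 1

/-- **The lower bound.** -/
theorem phi_near_polynomial {k n : ℕ} (hk : 3 ≤ k) :
    n < (phi k n + 1) ^ (2 * logStar n + 7) * (logStar n + 4) ^ (logStar n + 3) := by
  classical
  set D := (logStar n + 4) ^ (logStar n + 3) with hD
  have hD1 : 1 ≤ D := Nat.pow_pos (Nat.succ_pos _)
  set e := 2 * logStar n + 7 with he
  have hex : ∃ t, n < (t + 1) ^ e * D := by
    refine ⟨n, ?_⟩
    calc n < (n + 1) ^ 1 * 1 := by rw [pow_one, mul_one]; exact Nat.lt_succ_self n
      _ ≤ (n + 1) ^ e * D := Nat.mul_le_mul (Nat.pow_le_pow_right (by omega) (by omega)) hD1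
  set t := Nat.find hex with ht
  have h1 : n < (t + 1) ^ e * D := Nat.find_spec hex
  have h2 : t ≤ phi k n := by
    rcases Nat.eq_zero_or_pos t with h0 | h0
    · omega
    · have h3 : t ^ e * D ≤ n := by
        have := Nat.find_min hex (m := t - 1) (by omega)
        rw [not_lt] at this
        rwa [Nat.sub_add_cancel h0] at this
      have htn : t ≤ n := by
        calc t = t ^ 1 * 1 := by ring
          _ ≤ t ^ e * D := Nat.mul_le_mul (Nat.pow_le_pow_right h0 (by omega)) hD1
          _ ≤ n := h3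
      calc t ≤ phi t t := le_phi_self t
        _ ≤ phi 3 n := by
            refine phi_reduction h0 h0 ((fam_logStar n).mono htn) (le_trans (le_of_eq ?_) h3)
            rw [hD, he]
            congr 1
        _ ≤ phi k n := phi_mono_left hk
  refine h1.trans_le (Nat.mul_le_mul_right _ (Nat.pow_le_pow_left (by omega) _))

end Pool.Agent.H64.OC2
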