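import Mathlib

/-!
# On-line colouring: iterated types

Level `0` types are the three colours; a type of level `j + 1` is a set of types of level `j`.
-/

set_option autoImplicit false

namespace Pool.Agent.H64.OC2

/-- Types of level `j`. -/
def Ty : ℕ → Type
  | 0 => Fin 3
  | j + 1 => Set (Ty j)

/-- Admissible pairs of types. -/
def Adm : (j : ℕ) → Ty j → Ty j → Prop
  | 0 => fun a b => (show Fin 3 from a) ≠ (show Fin 3 from b)
  | j + 1 => fun A B => ∃ a ∈ (show Set (Ty j) from A), ∀ b ∈ (show Set (Ty j) from B), Adm j a b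

/-- Hereditarily nonempty types. -/
def Ok : (j : ℕ) → Ty j → Prop
  | 0 => fun _ => True
  | j + 1 => fun A => (∃ a, a ∈ (show Set (Ty j) from A)) ∧
      ∀ a ∈ (show Set (Ty j) from A), Ok j a

/-- There are `m` pairwise admissible types of level `j`. -/
def Fam (j m : ℕ) : Prop :=
  ∃ X : Fin m → Ty j, (∀ a, Ok j (X a)) ∧ ∀ a b, a ≠ b → Adm j (X a) (X b)

theorem Fam.mono {j m m' : ℕ} (h : Fam j m) (hm : m' ≤ m) : Fam j m' := by
  obtain ⟨X, h1, h2⟩ := h
  refine ⟨fun a => X (Fin.castLE hm a), fun a => h1 _, fun a b hab => h2 _ _ ?_⟩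
  intro h
  exact hab (Fin.castLE_injective hm h)

/-- One level up: an antichain of nonempty sets of indices gives a family. -/
theorem Fam.up {j m m' : ℕ} (h : Fam j m) (S : Fin m' → Finset (Fin m))
    (hne : ∀ a, (S a).Nonempty) (hS : ∀ a b, a ≠ b → ∃ s ∈ S a, s ∉ S b) : Fam (j + 1) m' := by
  obtain ⟨X, h1, h2⟩ := h
  refine ⟨fun a => ((X '' (S a : Set (Fin m)) : Set (Ty j)) : Ty (j + 1)), ?_, ?_⟩
  · intro a
    refine ⟨?_, ?_⟩
    · obtain ⟨s, hs⟩ := hne a
      exact ⟨X s, s, hs, rfl⟩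
    · rintro _ ⟨s, _, rfl⟩
      exact h1 s
  · intro a b hab
    obtain ⟨s, hs, hsb⟩ := hS a b hab
    refine ⟨X s, ⟨s, hs, rfl⟩, ?_⟩
    rintro _ ⟨s', hs', rfl⟩
    refine h2 s s' ?_
    rintro rfl
    exact hsb hs'

theorem fam_zero : Fam 0 3 :=
  ⟨fun a => (show Ty 0 from a), fun _ => trivial, fun _ _ h => h⟩

/-- level two: `{{0},{1},{2}}, {{0,1}}, {{0,2}}, {{1,2}}` -/
theorem fam_two : Fam 2 4 := by
  have key : ∃ Y : Fin 4 → Finset (Finset (Fin 3)),
      (∀ a, (Y a).Nonempty ∧ ∀ s ∈ Y a, s.Nonempty) ∧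
      ∀ a b, a ≠ b → ∃ s ∈ Y a, ∀ t ∈ Y b, ∃ c ∈ s, c ∉ t := by
    refine ⟨![{{0}, {1}, {2}}, {{0, 1}}, {{0, 2}}, {{1, 2}}], ?_, ?_⟩
    · decide
    · decide
  obtain ⟨Y, h1, h2⟩ := key
  refine ⟨fun a => (show Ty 2 from
    ((fun s : Finset (Fin 3) => (show Ty 1 from ({c | c ∈ s} : Set (Fin 3)))) ''
      {s | s ∈ Y a} : Set (Ty 1))), ?_, ?_⟩
  · intro a
    refine ⟨?_, ?_⟩
    · obtain ⟨s, hs⟩ := (h1 a).1
      exact ⟨_, s, hs, rfl⟩
    · rintro _ ⟨s, hs, rfl⟩
      refine ⟨?_, fun _ _ => trivial⟩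
      obtain ⟨c, hc⟩ := (h1 a).2 s hs
      exact ⟨c, hc⟩
  · intro a b hab
    obtain ⟨s, hs, hst⟩ := h2 a b hab
    refine ⟨_, ⟨s, hs, rfl⟩, ?_⟩
    rintro _ ⟨t, ht, rfl⟩
    obtain ⟨c, hc, hct⟩ := hst t ht
    refine ⟨c, hc, ?_⟩
    intro d hd hcd
    have hcd' : (c : Fin 3) = d := hcd
    subst hcd'
    exact hct hd

theorem fam_three : Fam 3 6 := by
  have key : ∃ S : Fin 6 → Finset (Fin 4), (∀ a, (S a).Nonempty) ∧
      ∀ a b, a ≠ b → ∃ s ∈ S a, s ∉ S b := by
    refine ⟨![{0, 1}, {0, 2}, {0, 3}, {1, 2}, {1, 3}, {2, 3}], ?_, ?_⟩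
    · decide
    · decide
  obtain ⟨S, h1, h2⟩ := key
  exact fam_two.up S h1 h2

/-- selectors: `2 r` types give `2 ^ r` types one level up -/
theorem Fam.double {j r : ℕ} (hr : 1 ≤ r) (h : Fam j (2 * r)) : Fam (j + 1) (2 ^ r) := by
  classical
  have e : Fin (2 ^ r) ≃ (Fin r → Bool) := by
    refine Fintype.equivOfCardEq ?_
    simp
  let pt : Fin r → Bool → Fin (2 * r) := fun i c =>
    ⟨2 * i.val + (if c then 1 else 0), by have := i.isLt; split_ifs <;> omega⟩
  have hpt : ∀ i c i' c', pt i c = pt i' c' → i = i' ∧ c = c' := by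
    intro i c i' c' h
    have h' : 2 * i.val + (if c then 1 else 0) = 2 * i'.val + (if c' then 1 else 0) :=
      congrArg Fin.val h
    cases c <;> cases c' <;> simp at h' ⊢
    · exact Fin.ext h'
    · omega
    · omega
    · exact Fin.ext h'
  refine h.up (fun a => Finset.univ.image fun i => pt i (e a i)) ?_ ?_
  · intro a
    exact ⟨_, Finset.mem_image_of_mem _ (Finset.mem_univ (⟨0, hr⟩ : Fin r))⟩
  · intro a b hab
    have : ∃ i, e a i ≠ e b i := by
      by_contra hall
      push Not at hall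
      exact hab (e.injective (funext hall))
    obtain ⟨i, hi⟩ := this
    refine ⟨pt i (e a i), Finset.mem_image_of_mem _ (Finset.mem_univ i), ?_⟩
    intro hmem
    rw [Finset.mem_image] at hmem
    obtain ⟨i', _, hi'⟩ := hmem
    obtain ⟨h1, h2⟩ := hpt _ _ _ _ hi'
    subst h1
    exact hi h2.symm

/-- the tower function: `tower 0 = 1`, `tower (t + 1) = 2 ^ tower t` -/
def tower : ℕ → ℕ
  | 0 => 1
  | t + 1 => 2 ^ tower t

theorem tower_pos (t : ℕ) : 1 ≤ tower t := by
  cases t with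
  | zero => exact le_rfl
  | succ t => exact Nat.one_le_two_pow

theorem lt_tower (t : ℕ) : t < tower t := by
  induction t with
  | zero => decide
  | succ t ih =>
    have h1 : tower t < 2 ^ tower t := Nat.lt_two_pow_self
    show t + 1 < 2 ^ tower t
    omega

theorem tower_mono {s t : ℕ} (h : s ≤ t) : tower s ≤ tower t := by
  induction h with
  | refl => exact le_rfl
  | step _ ih => exact ih.trans (Nat.lt_two_pow_self (n := tower _)).le

theorem fam_tower (i : ℕ) : Fam (i + 5) (2 * (tower (i + 2) + 2)) := by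
  induction i with
  | zero =>
    have h4 : Fam 4 (2 ^ 3) := fam_three.double (r := 3) (by norm_num)
    have h5 : Fam 5 (2 ^ 4) := Fam.double (r := 4) (by norm_num) h4
    exact h5.mono (by decide)
  | succ i ih =>
    have h1 := ih.double (by omega)
    refine h1.mono ?_
    have h2 : tower (i + 1 + 2) = 2 ^ tower (i + 2) := rfl
    have h3 : 2 ^ (tower (i + 2) + 2) = 4 * 2 ^ tower (i + 2) := by
      rw [pow_add]; ring
    have h4 : 2 ≤ 2 ^ tower (i + 2) := by
      calc 2 = 2 ^ 1 := rfl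
        _ ≤ _ := Nat.pow_le_pow_right (by norm_num) (tower_pos _)
    rw [h2, h3]
    omega

/-- the iterated logarithm: the least `t` with `n ≤ tower t` -/
noncomputable def logStar (n : ℕ) : ℕ := sInf {t : ℕ | n ≤ tower t}

theorem le_tower_logStar (n : ℕ) : n ≤ tower (logStar n) := by
  have : {t : ℕ | n ≤ tower t}.Nonempty := ⟨n, (lt_tower n).le⟩
  exact Nat.sInf_mem this

theorem logStar_le {n t : ℕ} (h : n ≤ tower t) : logStar n ≤ t := Nat.sInf_le h

theorem logStar_mono {m n : ℕ} (h : m ≤ n) : logStar m ≤ logStar n :=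
  logStar_le (h.trans (le_tower_logStar n))

/-- `n` pairwise admissible types exist at level `log* n + 3` -/
theorem fam_logStar (n : ℕ) : Fam (logStar n + 3) n := by
  rcases Nat.lt_or_ge (logStar n) 2 with h | h
  · have hn : n ≤ 2 := by
      refine (le_tower_logStar n).trans ((tower_mono (Nat.le_of_lt_succ h)).trans ?_)
      decide
    rcases Nat.lt_or_ge (logStar n) 1 with h0 | h0
    · have : logStar n = 0 := by omega
      rw [this]
      exact fam_three.mono (by omega)
    · have : logStar n = 1 := by omega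
      rw [this]
      have h4 : Fam 4 (2 ^ 3) := fam_three.double (r := 3) (by norm_num)
      exact h4.mono (by omega)
  · obtain ⟨i, hi⟩ := Nat.exists_eq_add_of_le h
    have h1 := fam_tower i
    have h2 : logStar n + 3 = i + 5 := by omega
    rw [h2]
    refine h1.mono ?_
    have h3 := le_tower_logStar n
    rw [show logStar n = i + 2 by omega] at h3
    omega

end Pool.Agent.H64.OC2
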